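import Pool.Agent.Lib.MP_f80667_ag.Rs.M2

/-! The sum of the image of a cycle rationally equivalent to `0` is `0`. -/

open ZC BE PE CV GX

namespace RS

variable {F : Type} [Field F] {N N' k k' : ℕ} {ι ι' : Type} {f : ι → MvPolynomial (Fin N) F}
  {A : Gv F N' k' ι'} {M : Mf f A k} {K E Ω : Type} [Field K] [CharZero K] [Field E] [Field Ω]
  [Algebra K E] [Algebra K Ω] [IsAlgClosure K Ω] [Algebra F K] [Algebra F E] [Algebra F Ω]
  [IsScalarTower F K E] [IsScalarTower F K Ω]

/-- The generators. Proof: if `g` is algebraic over `K` all orders are `0`. Otherwise the zeros of `g` and those of `g⁻¹` are in `S`,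
`half` for `g` and for `g⁻¹` (`K (g) = K (g⁻¹)`, `- m`, the same `c`: `tr_cst`) and the other places of `S` have order `0`.
`exists_fixed` gives the point `P` over `E` with image `x`, `red_of_val` its values. Compare the proof of `Dz.sum_ord`. -/
theorem gen (hf : Hm f) (hA : A.Ok) (hM : M.Ok) (hE : IsFunField K E) {g : E} (hg : g ≠ 0)
    {x : (Xf f).pt (AlgebraicClosure E)} (hx : (Xf f).Rat E x) (S : Finset (Place K E Ω))
    (m : Place K E Ω → ℤ) (y : Place K E Ω → (Xf f).pt Ω)
    (h1 : ∀ w, w ∉ S → g ∈ w.V ∧ g⁻¹ ∈ w.V)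
    (h2 : ∀ w ∈ S, w.IsOrd g (m w) ∧ (Xf f).IsVal w x (y w)) :
    (letI := A.G.grp Ω; ∑ w ∈ S, m w • M.φ Ω (y w)) = (A.G.grp Ω).zero := by
  classical
  let _ : AddCommGroup ((Xf A.a).pt Ω) := A.G.grp Ω
  change ∑ w ∈ S, m w • M.φ Ω (y w) = 0
  have hEchar : CharZero E := charZero_of_injective_algebraMap (algebraMap K E).injective
  by_cases hxg : Transcendental K g
  · have hxg' : Transcendental K g⁻¹ := fun h => hxg (by simpa using h.inv)
    have hnu : ∀ (w : Place K E Ω) (y : E), y ≠ 0 → (y ∈ w.V.nonunits ↔ y⁻¹ ∉ w.V) := by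
      intro w y hy
      rw [ValuationSubring.mem_nonunits_iff_or]
      exact ⟨fun h => h.resolve_left hy, Or.inr⟩
    have hfd : FiniteDimensional (IntermediateField.adjoin K {g}) E := Dz.finite_adjoin hE hxg
    obtain ⟨P, hP⟩ := exists_fixed hf (k := E) (L := AlgebraicClosure E) x hx
    have hyr : ∀ w ∈ S, (Xf f).red w P (y w) := fun w hw => red_of_val hf hP (h2 w hw).2
    obtain ⟨c, hc⟩ := tr_cst (Ω := Ω) hA hM hxg rfl P
    have hz : ∑ w ∈ S.filter (fun w => g ∈ w.V.nonunits), m w • M.φ Ω (y w) = c :=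
      half hf hA hM hE hxg rfl P (S.filter fun w => g ∈ w.V.nonunits) m (fun w => by
        rw [Finset.mem_filter]
        refine ⟨fun h => h.2, fun h => ⟨?_, h⟩⟩
        by_contra hS
        exact ((hnu w g hg).1 h) (h1 w hS).2) (fun w hw => (h2 w (Finset.mem_filter.1 hw).1).1)
        y (fun w hw => hyr w (Finset.mem_filter.1 hw).1) hc
    have hK : IntermediateField.adjoin K {g} = IntermediateField.adjoin K {g⁻¹} := by
      apply le_antisymm
      · rw [IntermediateField.adjoin_simple_le_iff]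
        have h3 := IntermediateField.mem_adjoin_simple_self K g⁻¹
        simpa using inv_mem h3
      · rw [IntermediateField.adjoin_simple_le_iff]
        exact inv_mem (IntermediateField.mem_adjoin_simple_self K g)
    have hp : ∑ w ∈ S.filter (fun w => g⁻¹ ∈ w.V.nonunits), (- m w) • M.φ Ω (y w) = c :=
      half hf hA hM hE hxg' hK P (S.filter fun w => g⁻¹ ∈ w.V.nonunits) (fun w => - m w)
        (fun w => by
        rw [Finset.mem_filter]
        refine ⟨fun h => h.2, fun h => ⟨?_, h⟩⟩
        by_contra hS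
        apply ((hnu w g⁻¹ (inv_ne_zero hg)).1 h)
        rw [inv_inv]
        exact (h1 w hS).1) (fun w hw => Dz.ord_inv (h2 w (Finset.mem_filter.1 hw).1).1)
        y (fun w hw => hyr w (Finset.mem_filter.1 hw).1) hc
    have h3 : ∑ w ∈ S, m w • M.φ Ω (y w) =
        ∑ w ∈ S.filter (fun w => g ∈ w.V.nonunits), m w • M.φ Ω (y w) -
        ∑ w ∈ S.filter (fun w => g⁻¹ ∈ w.V.nonunits), (- m w) • M.φ Ω (y w) := by
      rw [Finset.sum_filter, Finset.sum_filter, ← Finset.sum_sub_distrib]
      refine Finset.sum_congr rfl fun w hw => ?_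
      rw [hnu w g hg, hnu w g⁻¹ (inv_ne_zero hg), inv_inv]
      by_cases ha : g ∈ w.V
      · by_cases hb : g⁻¹ ∈ w.V
        · rw [if_neg (not_not.2 hb), if_neg (not_not.2 ha), (h2 w hw).1.eq_zero ha hb, zero_smul,
            sub_zero]
        · rw [if_pos hb, if_neg (not_not.2 ha), sub_zero]
      · have hb : g⁻¹ ∈ w.V := (w.V.mem_or_inv_mem g).resolve_left ha
        rw [if_neg (not_not.2 hb), if_pos ha, neg_smul, zero_sub, neg_neg]
    rw [h3, hz, hp, sub_self]
  · rw [Transcendental, not_not] at hxg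
    refine Finset.sum_eq_zero fun w hw => ?_
    have hmem : ∀ y : E, IsAlgebraic K y → y ∈ w.V := by
      intro y hy
      obtain ⟨p, hp, hpy⟩ := hy.isIntegral
      have h3 : IsIntegral w.V.valuation.integer y := by
        let φ : K →+* w.V.valuation.integer :=
          { toFun := fun c => ⟨algebraMap K E c, (w.V.valuation_le_one_iff _).2 (w.mem c)⟩
            map_one' := by ext; simp
            map_zero' := by ext; simp
            map_mul' := by intro x y; ext; simp
            map_add' := by intro x y; ext; simp }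
        refine ⟨p.map φ, hp.map φ, ?_⟩
        rw [Polynomial.eval₂_map]
        exact hpy
      have h4 := (Valuation.Integers.mem_of_integral
        (Valuation.integer.integers w.V.valuation) h3)
      exact (w.V.valuation_le_one_iff _).1 h4
    rw [(h2 w hw).1.eq_zero (hmem g hxg) (hmem _ hxg.inv), zero_smul]

/-- **The sum of the image of a cycle rationally equivalent to `0` is `0`.** -/
theorem rs (hf : Hm f) (hA : A.Ok) (hM : M.Ok) {z : (Xf f).pt Ω →₀ ℤ}
    (hz : z ∈ (Xf f).ratEq K Ω) : letI := A.G.grp Ω; M.S Ω z = 0 := by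
  let _ : AddCommGroup ((Xf A.a).pt Ω) := A.G.grp Ω
  have hle : (Xf f).ratEq K Ω ≤ (M.S Ω).ker := by
    refine (AddSubgroup.closure_le _).2 ?_
    rintro z ⟨E, _, _, _, _, hE, g, x, hg, hx, S, m, y, h1, h2, rfl⟩
    change M.S Ω _ = 0
    rw [map_sum]
    have h3 : ∀ w ∈ S, M.S Ω (Finsupp.single (y w) (m w)) = m w • M.φ Ω (y w) := by
      intro w _
      change A.G.sum Ω (Finsupp.mapDomain (M.φ Ω) (Finsupp.single (y w) (m w))) = _
      rw [Finsupp.mapDomain_single]
      exact Finsupp.liftAddHom_apply_single _ _ _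
    rw [Finset.sum_congr rfl h3]
    exact gen hf hA hM hE hg hx S m y h1 h2
  exact hle hz

end RS
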