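import Mathlib

/-!
Rational curves in group varieties are constant, part 1: definitions.

`Ω` is an algebraically closed field of characteristic `0`, `Γ` a group (the `Ω`-points of a group variety in `P^(n-1)`),
`co P x`: `x` are homogeneous coordinates of `P`, `m i`: vectors of polynomials which compute the differences of points,
`o`: coordinates of the point `0`. A rational curve is a vector `q` of polynomials such that the `q j (α)` are coordinates of a
point for all `α : Ω`.

* `Cg co m o j₀`: the properties.
* `ev m i x x'`: the value of the vector `m i`.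
* `zz m q α i j`: the polynomial `m i j (q (X), q (α))`.
* `cc m j₀ q i`: the polynomial `m i j₀ (q, q)`.
* `dd m q i j`: the polynomial whose value at `α` is the derivative of `zz m q α i j` at `α`.
* `nn m o j₀ q i l`: `dd m q i l - o l * dd m q i j₀`.
-/

open Polynomial

namespace RS

variable {Ω : Type} [Field Ω] {n : ℕ} {ι Γ : Type}

/-- The value of the vector `m i`. -/
noncomputable def ev (m : ι → Fin n → MvPolynomial (Fin n ⊕ Fin n) Ω) (i : ι) (x x' : Fin n → Ω) :
    Fin n → Ω := fun j => MvPolynomial.eval (Sum.elim x x') (m i j)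

/-- A group with homogeneous coordinates. -/
structure Cg [AddCommGroup Γ] (co : Γ → (Fin n → Ω) → Prop)
    (m : ι → Fin n → MvPolynomial (Fin n ⊕ Fin n) Ω) (o : Fin n → Ω) (j₀ : Fin n) : Prop where
  prp : ∀ P x x', co P x → co P x' → ∀ j k, x j * x' k = x k * x' j
  ne : ∀ P x, co P x → x ≠ 0
  smul : ∀ P x (c : Ω), co P x → c ≠ 0 → co P fun j => c * x j
  one : o j₀ = 1
  zero : co 0 o
  ex : ∀ P Q x x', co P x → co Q x' → ∃ i, ev m i x x' ≠ 0
  sub : ∀ P Q x x' i, co P x → co Q x' → ev m i x x' ≠ 0 → co (P - Q) (ev m i x x')

variable (m : ι → Fin n → MvPolynomial (Fin n ⊕ Fin n) Ω) (o : Fin n → Ω) (j₀ : Fin n)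
  (q : Fin n → Polynomial Ω)

/-- The polynomial `m i j (q (X), q (α))`. -/
noncomputable def zz (α : Ω) (i : ι) (j : Fin n) : Polynomial Ω :=
  MvPolynomial.aeval (Sum.elim q fun k => C ((q k).eval α)) (m i j)

/-- The polynomial `m i j₀ (q, q)`. -/
noncomputable def cc (i : ι) : Polynomial Ω := MvPolynomial.aeval (Sum.elim q q) (m i j₀)

/-- The polynomial whose value at `α` is the derivative of `zz m q α i j` at `α`. -/
noncomputable def dd (i : ι) (j : Fin n) : Polynomial Ω :=
  ∑ s, MvPolynomial.aeval (Sum.elim q q) (MvPolynomial.pderiv (Sum.inl s) (m i j)) *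
    derivative (q s)

/-- The derivative of `m i l - o l * m i j₀` along the curve. -/
noncomputable def nn (i : ι) (l : Fin n) : Polynomial Ω := dd m q i l - C (o l) * dd m q i j₀

private theorem ca_eval {σ : Type} (v : σ → Polynomial Ω) (x : Ω) (p : MvPolynomial σ Ω) :
    (MvPolynomial.aeval v p).eval x = MvPolynomial.eval (fun i => (v i).eval x) p := by
  induction p using MvPolynomial.induction_on with
  | C a =>
    rw [MvPolynomial.aeval_C, MvPolynomial.eval_C]
    exact eval_C
  | add p q hp hq => rw [map_add, map_add, eval_add, hp, hq]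
  | mul_X p i hp => rw [map_mul, map_mul, eval_mul, hp, MvPolynomial.aeval_X, MvPolynomial.eval_X]

private theorem ca_der {σ : Type} [Fintype σ] [DecidableEq σ] (v : σ → Polynomial Ω)
    (p : MvPolynomial σ Ω) : derivative (MvPolynomial.aeval v p) =
      ∑ s, MvPolynomial.aeval v (MvPolynomial.pderiv s p) * derivative (v s) := by
  induction p using MvPolynomial.induction_on with
  | C a =>
    have h1 : MvPolynomial.aeval v (MvPolynomial.C a) = (C a : Polynomial Ω) :=
      MvPolynomial.aeval_C v a
    rw [h1, derivative_C]
    refine (Finset.sum_eq_zero fun s _ => ?_).symm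
    rw [MvPolynomial.pderiv_C, map_zero, zero_mul]
  | add p q hp hq =>
    rw [map_add, derivative_add, hp, hq, ← Finset.sum_add_distrib]
    refine Finset.sum_congr rfl fun s _ => ?_
    rw [map_add, map_add, add_mul]
  | mul_X p i hp =>
    rw [map_mul, MvPolynomial.aeval_X, derivative_mul, hp]
    have h1 : ∀ s, MvPolynomial.aeval v (MvPolynomial.pderiv s (p * MvPolynomial.X i)) *
        derivative (v s) = MvPolynomial.aeval v (MvPolynomial.pderiv s p) * derivative (v s) * v i +
          if s = i then MvPolynomial.aeval v p * derivative (v s) else 0 := fun s => by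
      rw [Derivation.leibniz, smul_eq_mul, smul_eq_mul, map_add, map_mul, map_mul,
        MvPolynomial.aeval_X]
      by_cases hs : s = i
      · rw [if_pos hs, hs, MvPolynomial.pderiv_X_self, map_one]
        ring
      · rw [if_neg hs, MvPolynomial.pderiv_X_of_ne (Ne.symm hs), map_zero]
        ring
    rw [Finset.sum_congr rfl fun s _ => h1 s, Finset.sum_add_distrib, ← Finset.sum_mul,
      Finset.sum_ite_eq' Finset.univ i, if_pos (Finset.mem_univ i)]

theorem zz_eval (α x : Ω) (i : ι) (j : Fin n) :
    (zz m q α i j).eval x = ev m i (fun k => (q k).eval x) (fun k => (q k).eval α) j := by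
  unfold zz ev
  rw [ca_eval]
  refine congrArg (fun v => MvPolynomial.eval v (m i j)) (funext fun s => ?_)
  rcases s with s | s
  · rfl
  · exact eval_C

theorem cc_eval (α : Ω) (i : ι) :
    (cc m j₀ q i).eval α = ev m i (fun k => (q k).eval α) (fun k => (q k).eval α) j₀ := by
  unfold cc ev
  rw [ca_eval]
  refine congrArg (fun v => MvPolynomial.eval v (m i j₀)) (funext fun s => ?_)
  rcases s with s | s <;> rfl

/-- The chain rule. Proof: induction over the polynomial `m i j` (`MvPolynomial.induction_on`), or uniqueness of derivations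
(`MvPolynomial.derivation_ext`): both sides are values at `m` of derivations of `MvPolynomial` with values in `Ω` (module structure by
evaluation at the point `(q (α), q (α))`) which agree at the variables. -/
theorem zz_der (α : Ω) (i : ι) (j : Fin n) :
    (derivative (zz m q α i j)).eval α = (dd m q i j).eval α := by
  have hv : (fun s => ((Sum.elim q fun k => C ((q k).eval α) : Fin n ⊕ Fin n → Polynomial Ω) s).eval α) =
      fun s => ((Sum.elim q q : Fin n ⊕ Fin n → Polynomial Ω) s).eval α := funext fun s => by
    rcases s with s | s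
    · rfl
    · exact eval_C
  unfold zz dd
  rw [ca_der, Fintype.sum_sum_type, eval_add, eval_finsetSum, eval_finsetSum, eval_finsetSum]
  have h2 : ∑ s : Fin n, eval α (MvPolynomial.aeval (Sum.elim q fun k => C ((q k).eval α))
      (MvPolynomial.pderiv (Sum.inr s) (m i j)) *
      derivative ((Sum.elim q fun k => C ((q k).eval α) : Fin n ⊕ Fin n → Polynomial Ω)
        (Sum.inr s))) = 0 := by
    refine Finset.sum_eq_zero fun s _ => ?_
    rw [Sum.elim_inr, derivative_C, mul_zero, eval_zero]
  rw [h2, add_zero]
  refine Finset.sum_congr rfl fun s _ => ?_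
  rw [eval_mul, eval_mul, ca_eval, ca_eval, hv, Sum.elim_inl]

end RS
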