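import Pool.Agent.Lib.MP_f80667_ag.Rs.Ca

/-! Rational curves in group varieties are constant, part 2: the relations between the derivatives. -/

open Polynomial

namespace RS

variable {Ω : Type} [Field Ω] [CharZero Ω] {n : ℕ} {ι Γ : Type} [AddCommGroup Γ]
  {co : Γ → (Fin n → Ω) → Prop} {m : ι → Fin n → MvPolynomial (Fin n ⊕ Fin n) Ω} {o : Fin n → Ω}
  {j₀ : Fin n} (hC : Cg co m o j₀) {q r : Fin n → Polynomial Ω}

include hC

/-- Proof: `ev m i x x` (`x = q (α)`) is `0` or coordinates of `P - P = 0`, so proportional to `o`, `o j₀ = 1`. -/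
theorem zz_self (hq : ∀ α, ∃ P, co P fun j => (q j).eval α) (α : Ω) (i : ι) (j : Fin n) :
    (zz m q α i j).eval α = (cc m j₀ q i).eval α * o j := by
  rw [zz_eval, cc_eval]
  obtain ⟨P, hP⟩ := hq α
  by_cases h0 : ev m i (fun k => (q k).eval α) (fun k => (q k).eval α) = 0
  · rw [h0]
    simp
  · have h1 := hC.sub P P _ _ i hP hP h0
    rw [sub_self] at h1
    have h2 := hC.prp 0 _ _ h1 hC.zero j j₀
    rwa [hC.one, mul_one] at h2

/-- For every `α` some `c_i (α)` is not `0`. Proof: `hC.ex`, `zz_self`. -/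
theorem cc_ne (hq : ∀ α, ∃ P, co P fun j => (q j).eval α) (α : Ω) :
    ∃ i, (cc m j₀ q i).eval α ≠ 0 := by
  obtain ⟨P, hP⟩ := hq α
  obtain ⟨i, hi⟩ := hC.ex P P _ _ hP hP
  refine ⟨i, fun h0 => hi (funext fun j => ?_)⟩
  have h1 := zz_self hC hq α i j
  rw [h0, zero_mul, zz_eval] at h1
  exact h1

/-- Proof: for all `x` the vectors `zz m q α i · (x)`, `zz m q α i' · (x)` are `0` or coordinates of the same point
`P (x) - P (α)`, so `W Z' = Z W'` for the polynomials `W = zz i l - o l * zz i j₀`, `Z = zz i j₀` and `W'`, `Z'` (the same for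
`i'`; `Polynomial.funext`). Take derivatives at `α`, where `W`, `W'` are `0` (`zz_self`, `zz_der`). -/
theorem nn_cc (hq : ∀ α, ∃ P, co P fun j => (q j).eval α) (α : Ω) (i i' : ι) (l : Fin n) :
    (nn m o j₀ q i l).eval α * (cc m j₀ q i').eval α =
      (cc m j₀ q i).eval α * (nn m o j₀ q i' l).eval α := by
  have hd : ∀ k : ι, (derivative (zz m q α k l - C (o l) * zz m q α k j₀)).eval α =
      (nn m o j₀ q k l).eval α := by
    intro k
    rw [derivative_sub, derivative_C_mul, eval_sub, eval_mul, eval_C, zz_der, zz_der, nn,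
      eval_sub, eval_mul, eval_C]
  have hz : ∀ k : ι, (zz m q α k j₀).eval α = (cc m j₀ q k).eval α := by
    intro k
    rw [zz_self hC hq α k j₀, hC.one, mul_one]
  have hw : ∀ k : ι, (zz m q α k l - C (o l) * zz m q α k j₀).eval α = 0 := by
    intro k
    rw [eval_sub, eval_mul, eval_C, hz, zz_self hC hq α k l]
    ring
  have key : (zz m q α i l - C (o l) * zz m q α i j₀) * zz m q α i' j₀ =
      zz m q α i j₀ * (zz m q α i' l - C (o l) * zz m q α i' j₀) := by
    refine Polynomial.funext fun x => ?_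
    simp only [eval_mul, eval_sub, eval_C, zz_eval]
    obtain ⟨P, hP⟩ := hq x
    obtain ⟨Q, hQ⟩ := hq α
    by_cases h0 : ev m i (fun k => (q k).eval x) (fun k => (q k).eval α) = 0
    · rw [h0]
      simp
    by_cases h0' : ev m i' (fun k => (q k).eval x) (fun k => (q k).eval α) = 0
    · rw [h0']
      simp
    have h1 := hC.prp (P - Q) _ _ (hC.sub P Q _ _ i hP hQ h0) (hC.sub P Q _ _ i' hP hQ h0') l j₀
    linear_combination h1
  have h2 := congrArg (fun f : Polynomial Ω => (derivative f).eval α) key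
  simp only [derivative_mul (f := zz m q α i l - C (o l) * zz m q α i j₀),
    derivative_mul (f := zz m q α i j₀), eval_add, eval_mul, hd, hw, hz, zero_mul,
    mul_zero, add_zero, zero_add] at h2
  exact h2

end RS
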