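import Pool.Agent.Lib.MP_f80667_ag.Rs.Cb

/-! Rational curves in group varieties are constant: the relation at infinity. -/

open Polynomial

namespace RS

variable {Ω : Type} [Field Ω] [CharZero Ω] {n : ℕ} {ι Γ : Type} [AddCommGroup Γ]
  {co : Γ → (Fin n → Ω) → Prop} {m : ι → Fin n → MvPolynomial (Fin n ⊕ Fin n) Ω} {o : Fin n → Ω}
  {j₀ : Fin n} (hC : Cg co m o j₀) {q r : Fin n → Polynomial Ω}

include hC

private lemma fac (hq : ∀ α, ∃ P, co P fun j => (q j).eval α) (α : Ω) (i : ι) (l : Fin n) :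
    ∃ W : Polynomial Ω, zz m q α i l - C (o l) * zz m q α i j₀ = (X - C α) * W ∧
      W.eval α = (nn m o j₀ q i l).eval α := by
  have h0 : (zz m q α i l - C (o l) * zz m q α i j₀).eval α = 0 := by
    rw [eval_sub, eval_mul, eval_C, zz_self hC hq, zz_self hC hq, hC.one]
    ring
  obtain ⟨W, hW⟩ := dvd_iff_isRoot.2 h0
  refine ⟨W, hW, ?_⟩
  have h1 := congrArg (fun p => (derivative p).eval α) hW
  simp only [derivative_sub, derivative_mul, derivative_C, derivative_X, zero_mul, zero_add,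
    eval_sub, eval_add, eval_mul, eval_C, eval_X, sub_self, add_zero, sub_zero, one_mul,
    eval_one, zz_der] at h1
  rw [← h1, nn, eval_sub, eval_mul, eval_C]

private lemma agree (hq : ∀ α, ∃ P, co P fun j => (q j).eval α) {D : ℕ}
    (hr : ∀ x, x ≠ 0 → ∀ j, (r j).eval x = x ^ D * (q j).eval x⁻¹) {β : Ω} (hβ : β ≠ 0) (i i' : ι)
    (l : Fin n) {x : Ω} (hx : x ≠ 0) :
    (zz m r β i' l - C (o l) * zz m r β i' j₀).eval x * (zz m q β⁻¹ i j₀).eval x⁻¹ =
      (zz m r β i' j₀).eval x * (zz m q β⁻¹ i l - C (o l) * zz m q β⁻¹ i j₀).eval x⁻¹ := by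
  obtain ⟨P, hP⟩ := hq x⁻¹
  obtain ⟨Q, hQ⟩ := hq β⁻¹
  have hP' : co P fun j => (r j).eval x := by
    have h := hC.smul P _ (x ^ D) hP (pow_ne_zero _ hx)
    have e : (fun j => (r j).eval x) = fun j => x ^ D * (q j).eval x⁻¹ := funext (hr x hx)
    rw [e]
    exact h
  have hQ' : co Q fun j => (r j).eval β := by
    have h := hC.smul Q _ (β ^ D) hQ (pow_ne_zero _ hβ)
    have e : (fun j => (r j).eval β) = fun j => β ^ D * (q j).eval β⁻¹ := funext (hr β hβ)
    rw [e]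
    exact h
  obtain ⟨v, hv⟩ : ∃ v, v = ev m i' (fun k => (r k).eval x) (fun k => (r k).eval β) := ⟨_, rfl⟩
  obtain ⟨w, hw⟩ : ∃ w, w = ev m i (fun k => (q k).eval x⁻¹) (fun k => (q k).eval β⁻¹) := ⟨_, rfl⟩
  have key : v l * w j₀ = v j₀ * w l := by
    by_cases hv0 : v = 0
    · rw [hv0, Pi.zero_apply, Pi.zero_apply, zero_mul, zero_mul]
    by_cases hw0 : w = 0
    · rw [hw0, Pi.zero_apply, Pi.zero_apply, mul_zero, mul_zero]
    have h1 := hC.sub P Q _ _ i' hP' hQ' (by rw [← hv]; exact hv0)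
    have h2 := hC.sub P Q _ _ i hP hQ (by rw [← hw]; exact hw0)
    rw [← hv] at h1
    rw [← hw] at h2
    exact hC.prp _ _ _ h1 h2 l j₀
  have e1 : ∀ j, (zz m r β i' j).eval x = v j := fun j => by rw [zz_eval, hv]
  have e2 : ∀ j, (zz m q β⁻¹ i j).eval x⁻¹ = w j := fun j => by rw [zz_eval, hw]
  rw [eval_sub, eval_mul, eval_C, eval_sub, eval_mul, eval_C, e1, e1, e2, e2]
  linear_combination key

omit hC [CharZero Ω] in
private lemma rfl_eval {M : ℕ} {f : Polynomial Ω} (hf : f.natDegree ≤ M) {x : Ω} (hx : x ≠ 0) :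
    (reflect M f).eval x = f.eval x⁻¹ * x ^ M := by
  letI : Invertible x⁻¹ := invertibleOfNonzero (inv_ne_zero hx)
  have h := eval₂_reflect_mul_pow (RingHom.id Ω) x⁻¹ M f hf
  rw [invOf_eq_inv, inv_inv, eval₂_id, eval₂_id] at h
  rw [← h, mul_assoc, ← mul_pow, inv_mul_cancel₀ hx, one_pow, mul_one]

/-- The same for the curve `r (X) = X ^ D q (1 / X)`, `α = β⁻¹`. Proof: for all `x ≠ 0` the vectors `zz m r β i' · (x)`,
`zz m q α i · (x⁻¹)` are `0` or coordinates of the same point `P (x⁻¹) - P (α)` (`hC.smul`: `r (x) = x ^ D • q (x⁻¹)`). With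
`W' = zz m r β i' l - o l * zz m r β i' j₀ = (X - β) W₁'`, `Z' = zz m r β i' j₀`, `W = zz m q α i l - .. = (X - α) W₁`, `Z`:
`W' (x) Z (x⁻¹) = Z' (x) W (x⁻¹)`, so `W₁' (x) Z (x⁻¹) β x = - Z' (x) W₁ (x⁻¹)` for `x ≠ 0, β`. Multiply by `x ^ M`
(`Polynomial.reflect M`, `Polynomial.eval₂_reflect_mul_pow`): polynomials which agree at infinitely many points agree at `β`. -/
theorem nn_cc_inv (hq : ∀ α, ∃ P, co P fun j => (q j).eval α) {D : ℕ}
    (hr : ∀ x, x ≠ 0 → ∀ j, (r j).eval x = x ^ D * (q j).eval x⁻¹)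
    (hr0 : ∀ α, ∃ P, co P fun j => (r j).eval α) {β : Ω} (hβ : β ≠ 0) (i i' : ι) (l : Fin n) :
    (nn m o j₀ r i' l).eval β * (cc m j₀ q i).eval β⁻¹ * β ^ 2 =
      - ((cc m j₀ r i').eval β * (nn m o j₀ q i l).eval β⁻¹) := by
  classical
  obtain ⟨W', hW', eW'⟩ := fac hC hr0 β i' l
  obtain ⟨W, hW, eW⟩ := fac hC hq β⁻¹ i l
  have eZ' : (zz m r β i' j₀).eval β = (cc m j₀ r i').eval β := by
    rw [zz_self hC hr0, hC.one, mul_one]
  have eZ : (zz m q β⁻¹ i j₀).eval β⁻¹ = (cc m j₀ q i).eval β⁻¹ := by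
    rw [zz_self hC hq, hC.one, mul_one]
  obtain ⟨Z', hZ'⟩ : ∃ Z', Z' = zz m r β i' j₀ := ⟨_, rfl⟩
  obtain ⟨Z, hZ⟩ : ∃ Z, Z = zz m q β⁻¹ i j₀ := ⟨_, rfl⟩
  obtain ⟨M, hM⟩ : ∃ M : ℕ, M = max Z.natDegree W.natDegree := ⟨_, rfl⟩
  have hMZ : Z.natDegree ≤ M := by
    rw [hM]
    exact le_max_left _ _
  have hMW : W.natDegree ≤ M := by
    rw [hM]
    exact le_max_right _ _
  have key : ∀ x, x ≠ 0 → x ≠ β →
      (W' * reflect M Z * C β * X).eval x = (-(Z' * reflect M W)).eval x := by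
    intro x hx hxβ
    have h := agree hC hq hr hβ i i' l hx
    rw [hW', hW, ← hZ, ← hZ', eval_mul, eval_mul, eval_sub, eval_sub, eval_X, eval_X, eval_C,
      eval_C] at h
    have hd : x - β ≠ 0 := sub_ne_zero.2 hxβ
    have h2 : x⁻¹ - β⁻¹ = -((x - β) * (x⁻¹ * β⁻¹)) := by
      field_simp
      ring
    rw [h2] at h
    have h3 : W'.eval x * Z.eval x⁻¹ * (β * x) = -(Z'.eval x * W.eval x⁻¹) := by
      apply mul_left_cancel₀ hd
      have h4 : (x - β) * (W'.eval x * Z.eval x⁻¹ * (β * x)) =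
          ((x - β) * W'.eval x * Z.eval x⁻¹) * (β * x) := by ring
      rw [h4, h]
      field_simp
    rw [eval_neg, eval_mul, eval_mul, eval_mul, eval_mul, eval_C, eval_X, rfl_eval hMZ hx,
      rfl_eval hMW hx]
    linear_combination x ^ M * h3
  have heq : W' * reflect M Z * C β * X = -(Z' * reflect M W) := by
    haveI : Infinite Ω := Infinite.of_injective (Nat.cast : ℕ → Ω) Nat.cast_injective
    apply eq_of_infinite_eval_eq
    have hfin : ({0, β} : Set Ω).Finite := Set.toFinite _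
    refine hfin.infinite_compl.mono ?_
    intro x hx
    rw [Set.mem_compl_iff, Set.mem_insert_iff, Set.mem_singleton_iff, not_or] at hx
    exact key x hx.1 hx.2
  have hev := congrArg (fun p => p.eval β) heq
  rw [eval_neg, eval_mul, eval_mul, eval_mul, eval_mul, eval_C, eval_X, rfl_eval hMZ hβ,
    rfl_eval hMW hβ, eW', eW, hZ, eZ, hZ', eZ'] at hev
  have hb : β ^ M ≠ 0 := pow_ne_zero _ hβ
  apply mul_left_cancel₀ hb
  linear_combination hev

end RS
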