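import Mathlib

/-! Rational curves in group varieties are constant, part 3: polynomials. -/

open Polynomial

namespace RS

variable {Ω : Type} [Field Ω]

/-- Proof: the ideal generated by the `c i` is principal (`IsPrincipalIdealRing`); a root of a generator is a common root
(`IsAlgClosed.exists_root`), so the generator is a unit (it is not `0`); `Ideal.mem_span_range_iff_exists_fun`. -/
theorem exists_bez [IsAlgClosed Ω] {ι : Type} [Fintype ι] (c : ι → Polynomial Ω)
    (h : ∀ α, ∃ i, (c i).eval α ≠ 0) : ∃ u : ι → Polynomial Ω, ∑ i, u i * c i = 1 := by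
  classical
  obtain ⟨g, hg⟩ := (IsPrincipalIdealRing.principal (Ideal.span (Set.range c))).principal
  have hc : ∀ i, g ∣ c i := by
    intro i
    have h1 : c i ∈ Ideal.span (Set.range c) := Ideal.subset_span ⟨i, rfl⟩
    rw [hg] at h1
    exact Ideal.mem_span_singleton.1 h1
  have hdeg : g.degree = 0 := by
    by_contra hne
    obtain ⟨α, hα⟩ := IsAlgClosed.exists_root g hne
    obtain ⟨i, hi⟩ := h α
    obtain ⟨d, hd⟩ := hc i
    rw [hd, eval_mul, hα.eq_zero, zero_mul] at hi
    exact hi rfl
  have hu : IsUnit g := isUnit_iff_degree_eq_zero.2 hdeg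
  have h1 : (1 : Polynomial Ω) ∈ Ideal.span (Set.range c) := by
    rw [hg]
    exact Ideal.mem_span_singleton.2 (hu.dvd)
  exact Ideal.mem_span_range_iff_exists_fun.1 h1

/-- Proof: `u i` as in `exists_bez`, `h = ∑ i, u i * a i`. -/
theorem exists_quo [IsAlgClosed Ω] [Infinite Ω] {ι : Type} [Fintype ι] (c a : ι → Polynomial Ω)
    (h : ∀ α, ∃ i, (c i).eval α ≠ 0)
    (h' : ∀ α i i', (a i).eval α * (c i').eval α = (c i).eval α * (a i').eval α) :
    ∃ g : Polynomial Ω, ∀ i, c i * g = a i := by
  obtain ⟨u, hu⟩ := exists_bez c h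
  have h1 : ∀ i i', a i * c i' = c i * a i' := by
    intro i i'
    refine Polynomial.funext fun α => ?_
    rw [eval_mul, eval_mul]
    exact h' α i i'
  refine ⟨∑ i', u i' * a i', fun i => ?_⟩
  have h2 : c i * ∑ i', u i' * a i' = a i * ∑ i', u i' * c i' := by
    rw [Finset.mul_sum, Finset.mul_sum]
    refine Finset.sum_congr rfl fun i' _ => ?_
    linear_combination (-u i') * h1 i i'
  rw [h2, hu, mul_one]

/-- Proof: for all `k` and `j`: `q j' * q k = q j * q k'` (`Polynomial.funext`), so with `∑ u k * q k = 1` (`exists_bez`):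
`q j' = q j * ∑ u k * q k'`, so `q j' = 0` by the degrees, characteristic `0`. -/
theorem const_of_wr [IsAlgClosed Ω] [CharZero Ω] {n : ℕ} (q : Fin n → Polynomial Ω)
    (h : ∀ α, ∃ j, (q j).eval α ≠ 0)
    (h' : ∀ α j k, (derivative (q j)).eval α * (q k).eval α =
      (q j).eval α * (derivative (q k)).eval α) : ∃ x : Fin n → Ω, ∀ j, q j = C (x j) := by
  obtain ⟨u, hu⟩ := exists_bez q h
  have h1 : ∀ j k, derivative (q j) * q k = q j * derivative (q k) := by
    intro j k
    refine Polynomial.funext fun α => ?_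
    rw [eval_mul, eval_mul]
    exact h' α j k
  have h2 : ∀ j, derivative (q j) = 0 := by
    intro j
    refine dvd_derivative_iff.1 ⟨∑ k, u k * derivative (q k), ?_⟩
    have h3 : derivative (q j) = derivative (q j) * ∑ k, u k * q k := by rw [hu, mul_one]
    rw [h3, Finset.mul_sum, Finset.mul_sum]
    refine Finset.sum_congr rfl fun k _ => ?_
    linear_combination (u k) * h1 j k
  refine ⟨fun j => (q j).coeff 0, fun j => ?_⟩
  exact eq_C_of_natDegree_eq_zero (derivative_eq_zero.1 (h2 j))

end RS
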