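import Mathlib

/-! Rational curves in group varieties are constant: polynomials, part 2. -/

open Polynomial

namespace RS

variable {Ω : Type} [Field Ω]

private theorem cc2_eq [Infinite Ω] {p r : Polynomial Ω} {s : Polynomial Ω} (hs : s ≠ 0)
    (h : ∀ x, s.eval x ≠ 0 → p.eval x = r.eval x) : p = r := by
  have h1 : (p - r) * s = 0 := by
    apply Polynomial.funext
    intro x
    rw [eval_mul, eval_sub, eval_zero]
    by_cases hx : s.eval x = 0
    · rw [hx, mul_zero]
    · rw [h x hx, sub_self, zero_mul]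
  exact sub_eq_zero.1 ((mul_eq_zero.1 h1).resolve_right hs)

private theorem cc2_val {p : Polynomial Ω} {α : Ω} (h : (X - C α) ^ 2 ∣ p) :
    p.eval α = 0 ∧ (derivative p).eval α = 0 := by
  obtain ⟨q, rfl⟩ := h
  constructor
  · simp
  · simp [derivative_mul, derivative_pow]

/-- Proof: let `M = natDegree g`; for `x ≠ 0`: `x ^ M g (x⁻¹) = (reflect M g) (x)`, so `f X ^ (M + 2) = - reflect M g` (they agree
at infinitely many points), the right side has degree `≤ M`, so `f = 0`, so `g (x) = 0` for `x ≠ 0`. -/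
theorem eq_zero_of_inv [Infinite Ω] {f g : Polynomial Ω}
    (h : ∀ x, x ≠ 0 → f.eval x * x ^ 2 = - g.eval x⁻¹) : g = 0 := by
  have h1 : f * X ^ (g.natDegree + 2) = - g.reverse := by
    refine cc2_eq (s := X) X_ne_zero fun x hx => ?_
    rw [eval_X] at hx
    have hxi : x⁻¹ ≠ 0 := inv_ne_zero hx
    letI : Invertible x⁻¹ := invertibleOfNonzero hxi
    have h2 := eval₂_reverse_mul_pow (RingHom.id Ω) x⁻¹ g
    rw [invOf_eq_inv, inv_inv, ← eval, ← eval, inv_pow] at h2
    have h3 := h x hx
    have h4 : x ^ g.natDegree ≠ 0 := pow_ne_zero _ hx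
    rw [eval_mul, eval_pow, eval_X, eval_neg, pow_add, ← mul_assoc, mul_right_comm, h3, ← h2]
    field_simp
  by_cases hf : f = 0
  · rw [hf, zero_mul, eq_comm, neg_eq_zero, reverse_eq_zero] at h1
    exact h1
  · exfalso
    have h2 := congrArg natDegree h1
    rw [natDegree_mul_X_pow _ hf, natDegree_neg] at h2
    have h3 := reverse_natDegree_le g
    omega

/-- Proof: modulo `(X - α) ^ 2`: `q j * v k = q k * v j`, `v k * y j = v j * y k` modulo `(X - α) ^ 2`, `y = q (α)`. Let `v k₀ (α)` be
not `0`; `v j * y k₀ = v k₀ * y j` modulo `(X - α) ^ 2`, so `q j * v k₀ * y k₀ = q k₀ * v j * y k₀ = q k₀ * v k₀ * y j`,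
`v k₀` is prime to `X - α`: `q j * y k₀ = q k₀ * y j` modulo `(X - α) ^ 2`. The value at `α` of `v` is proportional to `y ≠ 0`, so
`y k₀ ≠ 0`. Derivatives at `α`: `q j' (α) y k₀ = q k₀' (α) y j`, and the claim for `j`, `k` follows. -/
theorem wr_of_mod {n : ℕ} {q v : Fin n → Polynomial Ω} {α : Ω} (h0 : ∃ j, (q j).eval α ≠ 0)
    (hv : ∃ j, (v j).eval α ≠ 0) (h1 : ∀ j k, q j * v k = q k * v j)
    (h2 : ∀ j k, (X - C α) ^ 2 ∣ v k * C ((q j).eval α) - v j * C ((q k).eval α)) (j k : Fin n) :
    (derivative (q j)).eval α * (q k).eval α = (q j).eval α * (derivative (q k)).eval α := by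
  have e1 : ∀ j k, (v k).eval α * (q j).eval α = (v j).eval α * (q k).eval α := by
    intro j k
    have h3 := (cc2_val (h2 j k)).1
    rw [eval_sub, eval_mul, eval_mul, eval_C, eval_C] at h3
    exact sub_eq_zero.1 h3
  have e2 : ∀ j k, (derivative (v k)).eval α * (q j).eval α =
      (derivative (v j)).eval α * (q k).eval α := by
    intro j k
    have h3 := (cc2_val (h2 j k)).2
    rw [derivative_sub, derivative_mul, derivative_mul, derivative_C, derivative_C, mul_zero,
      mul_zero, add_zero, add_zero, eval_sub, eval_mul, eval_mul, eval_C, eval_C] at h3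
    exact sub_eq_zero.1 h3
  have e3 : ∀ j k, (derivative (q j)).eval α * (v k).eval α =
      (derivative (q k)).eval α * (v j).eval α := by
    intro j k
    have h3 := congrArg (fun w => (derivative w).eval α) (h1 j k)
    simp only [derivative_mul, eval_add, eval_mul] at h3
    linear_combination h3 - e2 j k
  obtain ⟨m, hm⟩ := hv
  apply mul_right_cancel₀ hm
  linear_combination (derivative (q j)).eval α * e1 k m - (derivative (q k)).eval α * e1 j m +
    (q m).eval α * e3 j k

/-- A polynomial with value and derivative `0` at `α`. -/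
theorem sq_dvd {p : Polynomial Ω} {α : Ω} (h : p.eval α = 0) (h' : (derivative p).eval α = 0) :
    (X - C α) ^ 2 ∣ p := by
  obtain ⟨q, rfl⟩ := dvd_iff_isRoot.2 h
  have h1 : q.eval α = 0 := by
    simpa [derivative_mul] using h'
  obtain ⟨r, rfl⟩ := dvd_iff_isRoot.2 h1
  exact ⟨r, by ring⟩

/-- Polynomials which agree at all points but finitely many. -/
theorem eq_of_ev [Infinite Ω] {p r : Polynomial Ω} {s : Polynomial Ω} (hs : s ≠ 0)
    (h : ∀ x, s.eval x ≠ 0 → p.eval x = r.eval x) : p = r :=
  cc2_eq hs h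

end RS
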