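import Pool.Agent.Lib.MP_f80667_ag.Rs.Cb2
import Pool.Agent.Lib.MP_f80667_ag.Rs.Cc
import Pool.Agent.Lib.MP_f80667_ag.Rs.Cc2

/-! Rational curves in group varieties are constant, part 4: the invariant forms vanish. -/

open Polynomial

namespace RS

variable {Ω : Type} [Field Ω] [IsAlgClosed Ω] [CharZero Ω] {n : ℕ} {ι Γ : Type} [Finite ι]
  [AddCommGroup Γ] {co : Γ → (Fin n → Ω) → Prop}
  {m : ι → Fin n → MvPolynomial (Fin n ⊕ Fin n) Ω} {o : Fin n → Ω} {j₀ : Fin n}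
  (hC : Cg co m o j₀) {q r : Fin n → Polynomial Ω}

include hC

/-- Proof: `exists_quo` for `cc`, `nn` of `q` and of `r` (`cc_ne`, `nn_cc`): `c_i h = n_i`, `c'_i h' = n'_i`; `nn_cc_inv` with `i`, `i'`
such that `c_i (β⁻¹)`, `c'_i' (β) ≠ 0` gives `h' (β) β ^ 2 = - h (β⁻¹)`, so `h = 0` (`eq_zero_of_inv`). -/
theorem nn_zero (hq : ∀ α, ∃ P, co P fun j => (q j).eval α) {D : ℕ}
    (hr : ∀ x, x ≠ 0 → ∀ j, (r j).eval x = x ^ D * (q j).eval x⁻¹)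
    (hr0 : ∀ α, ∃ P, co P fun j => (r j).eval α) (i : ι) (l : Fin n) : nn m o j₀ q i l = 0 := by
  classical
  have := Fintype.ofFinite ι
  obtain ⟨g, hg⟩ := exists_quo (fun i => cc m j₀ q i) (fun i => nn m o j₀ q i l) (cc_ne hC hq)
    (fun α i i' => nn_cc hC hq α i i' l)
  obtain ⟨g', hg'⟩ := exists_quo (fun i => cc m j₀ r i) (fun i => nn m o j₀ r i l)
    (cc_ne hC hr0) (fun α i i' => nn_cc hC hr0 α i i' l)
  have h0 : g = 0 := by
    refine eq_zero_of_inv (f := g') fun β hβ => ?_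
    obtain ⟨i₁, h₁⟩ := cc_ne hC hq β⁻¹
    obtain ⟨i₂, h₂⟩ := cc_ne hC hr0 β
    have h3 := nn_cc_inv hC hq hr hr0 hβ i₁ i₂ l
    rw [← hg i₁, ← hg' i₂, eval_mul, eval_mul] at h3
    have h4 : ((cc m j₀ r i₂).eval β * (cc m j₀ q i₁).eval β⁻¹) * (g'.eval β * β ^ 2) =
        ((cc m j₀ r i₂).eval β * (cc m j₀ q i₁).eval β⁻¹) * -g.eval β⁻¹ := by
      linear_combination h3
    exact mul_left_cancel₀ (mul_ne_zero h₂ h₁) h4
  rw [← hg i, h0, mul_zero]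

end RS
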