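import Pool.Agent.Lib.MP_f80667_ag.Rs.Cd

/-! Rational curves in group varieties are constant, part 5: the theorem. -/

open Polynomial

namespace RS

variable {Ω : Type} [Field Ω] [IsAlgClosed Ω] [CharZero Ω] {n : ℕ} {ι Γ : Type} [Finite ι]
  [AddCommGroup Γ] {co : Γ → (Fin n → Ω) → Prop}
  {m : ι → Fin n → MvPolynomial (Fin n ⊕ Fin n) Ω} {o : Fin n → Ω} {j₀ : Fin n}
  (hC : Cg co m o j₀) {q r : Fin n → Polynomial Ω}

omit [IsAlgClosed Ω] [CharZero Ω] [Finite ι] [AddCommGroup Γ] in
private theorem ce_eval {σ : Type} (f : σ → Polynomial Ω) (p : MvPolynomial σ Ω) (x : Ω) :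
    (MvPolynomial.aeval f p).eval x = MvPolynomial.eval (fun s => (f s).eval x) p := by
  induction p using MvPolynomial.induction_on with
  | C a =>
    rw [MvPolynomial.aeval_C, MvPolynomial.eval_C]
    exact eval_C
  | add p q hp hq => rw [map_add, eval_add, hp, hq, map_add]
  | mul_X p s hp =>
    rw [map_mul, eval_mul, hp, MvPolynomial.aeval_X, map_mul, MvPolynomial.eval_X]

/-- The value of the polynomial `m i k (z, u)`. -/
private theorem ce_ev (m : ι → Fin n → MvPolynomial (Fin n ⊕ Fin n) Ω)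
    (z : Fin n → Polynomial Ω) (u : Fin n → Ω) (i : ι) (k : Fin n) (x : Ω) :
    (MvPolynomial.aeval (Sum.elim z fun j => C (u j)) (m i k)).eval x =
      ev m i (fun j => (z j).eval x) u k := by
  rw [ce_eval, ev]
  congr 2
  funext s
  rcases s with s | s
  · rfl
  · exact eval_C

/-- Congruent arguments. -/
private theorem ce_mod {σ : Type} {f f' : σ → Polynomial Ω} {d : Polynomial Ω}
    (h : ∀ s, d ∣ f s - f' s) (p : MvPolynomial σ Ω) :
    d ∣ MvPolynomial.aeval f p - MvPolynomial.aeval f' p := by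
  induction p using MvPolynomial.induction_on with
  | C a =>
    rw [MvPolynomial.aeval_C, MvPolynomial.aeval_C, sub_self]
    exact dvd_zero _
  | add p q hp hq =>
    rw [map_add, map_add, add_sub_add_comm]
    exact dvd_add hp hq
  | mul_X p s hp =>
    rw [map_mul, map_mul, MvPolynomial.aeval_X, MvPolynomial.aeval_X]
    have e : MvPolynomial.aeval f p * f s - MvPolynomial.aeval f' p * f' s =
        (MvPolynomial.aeval f p - MvPolynomial.aeval f' p) * f s +
          MvPolynomial.aeval f' p * (f s - f' s) := by ring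
    rw [e]
    exact dvd_add (Dvd.dvd.mul_right hp _) (Dvd.dvd.mul_left (h s) _)

include hC

/-- Proof: take `i` with `c_i (α) ≠ 0`, `z j = zz m q α i j`: `z j - o j * z j₀` is divisible by `(X - α) ^ 2` (`zz_self`, `zz_der`,
`hn`, `sq_dvd`). Let `y = q (α)`, `co P y`; take `i₁` with `u = ev m i₁ o y ≠ 0`: `co (0 - P) u`. Take `i₂` with
`ev m i₂ (z (α)) u ≠ 0` (`z (α)` is a nonzero multiple of `o`, so coordinates of `0`: `hC.ex`). `v k` = value of `m i₂ k` at
`(z, u)`. Then: (1) `q j * v k = q k * v j`: at every `x` the vector `v (x)` is `0` or coordinates of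
`(P (x) - P) - (0 - P) = P (x)` if `z (x) ≠ 0` (then `z (x)` are coordinates of `P (x) - P`), and `z (x) ≠ 0` for all `x` but
finitely many (`eq_of_ev` with `s = z j₀`). (2) `v k` is congruent modulo `(X - α) ^ 2` to `v' k` = value of `m i₂ k` at
`(z j₀ • o, u)`, and `v' k * y j = v' j * y k`: at every `x` with `(z j₀) (x) ≠ 0` the vector `v' (x)` is `0` or coordinates of
`0 - (0 - P) = P`. (3) `v (α) = v' (α) ≠ 0`. `wr_of_mod`. -/
theorem wr (hq : ∀ α, ∃ P, co P fun j => (q j).eval α) (hn : ∀ i l, nn m o j₀ q i l = 0) (α : Ω)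
    (j k : Fin n) :
    (derivative (q j)).eval α * (q k).eval α = (q j).eval α * (derivative (q k)).eval α := by
  obtain ⟨P, hP⟩ := hq α
  obtain ⟨i, hi⟩ := cc_ne hC hq α
  obtain ⟨z, hz⟩ : ∃ z : Fin n → Polynomial Ω, z = fun j => zz m q α i j := ⟨_, rfl⟩
  have hzα : ∀ j, (z j).eval α = (cc m j₀ q i).eval α * o j := fun j => by
    rw [hz]
    exact zz_self hC hq α i j
  have hz0 : (z j₀).eval α ≠ 0 := by
    rw [hzα, hC.one, mul_one]
    exact hi
  have hzx : ∀ x, (fun j => (z j).eval x) =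
      ev m i (fun k => (q k).eval x) (fun k => (q k).eval α) := by
    intro x
    funext j
    rw [hz]
    exact zz_eval m q α x i j
  have hzd : ∀ j, (X - C α) ^ 2 ∣ z j - z j₀ * C (o j) := by
    intro j
    refine sq_dvd ?_ ?_
    · rw [eval_sub, eval_mul, eval_C, hzα, hzα, hC.one]
      ring
    · have h1 : ∀ j, (derivative (z j)).eval α = (dd m q i j).eval α := fun j => by
        rw [hz]
        exact zz_der m q α i j
      have h2 := congrArg (Polynomial.eval α) (hn i j)
      rw [nn, eval_sub, eval_mul, eval_C, eval_zero] at h2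
      rw [derivative_sub, derivative_mul, derivative_C, mul_zero, add_zero, eval_sub, eval_mul,
        eval_C, h1, h1]
      linear_combination h2
  -- the vectors
  obtain ⟨i₁, hu⟩ := hC.ex 0 P o _ hC.zero hP
  have hcu := hC.sub 0 P o _ i₁ hC.zero hP hu
  obtain ⟨u, hud⟩ : ∃ u : Fin n → Ω, u = ev m i₁ o fun j => (q j).eval α := ⟨_, rfl⟩
  rw [← hud] at hcu
  have hcz : co 0 fun j => (z j).eval α := by
    have h1 := hC.smul 0 o _ hC.zero hi
    have h2 : (fun j => (z j).eval α) = fun j => (cc m j₀ q i).eval α * o j := funext hzα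
    rw [h2]
    exact h1
  obtain ⟨i₂, hv⟩ := hC.ex 0 (0 - P) _ u hcz hcu
  obtain ⟨v, hvd⟩ : ∃ v : Fin n → Polynomial Ω, v = fun k =>
    MvPolynomial.aeval (Sum.elim z fun j => C (u j)) (m i₂ k) := ⟨_, rfl⟩
  have hvx : ∀ x, (fun k => (v k).eval x) = ev m i₂ (fun j => (z j).eval x) u := by
    intro x
    funext k
    rw [hvd]
    exact ce_ev m z u i₂ k x
  obtain ⟨v', hvd'⟩ : ∃ v' : Fin n → Polynomial Ω, v' = fun k =>
    MvPolynomial.aeval (Sum.elim (fun j => z j₀ * C (o j)) fun j => C (u j)) (m i₂ k) := ⟨_, rfl⟩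
  have hvx' : ∀ x, (fun k => (v' k).eval x) =
      ev m i₂ (fun j => (z j₀).eval x * o j) u := by
    intro x
    funext k
    rw [hvd']
    have h1 := ce_ev m (fun j => z j₀ * C (o j)) u i₂ k x
    simp only [eval_mul, eval_C] at h1
    exact h1
  have hvv : ∀ k, (X - C α) ^ 2 ∣ v k - v' k := by
    intro k
    rw [hvd, hvd']
    refine ce_mod (fun s => ?_) _
    rcases s with s | s
    · exact hzd s
    · change _ ∣ C (u s) - C (u s)
      rw [sub_self]
      exact dvd_zero _
  have hz0' : z j₀ ≠ 0 := by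
    intro h
    rw [h, eval_zero] at hz0
    exact hz0 rfl
  refine wr_of_mod (v := v) (Function.ne_iff.1 (hC.ne _ _ hP)) ?_ ?_ ?_ j k
  · rw [← hvx α] at hv
    exact Function.ne_iff.1 hv
  · intro j k
    refine eq_of_ev hz0' fun x hx => ?_
    rw [eval_mul, eval_mul]
    obtain ⟨Q, hQ⟩ := hq x
    have h1 : (fun j => (z j).eval x) ≠ 0 := fun h => hx (congrFun h j₀)
    have h2 : co (Q - P) fun j => (z j).eval x := by
      rw [hzx] at h1 ⊢
      exact hC.sub Q P _ _ i hQ hP h1
    by_cases h3 : ev m i₂ (fun j => (z j).eval x) u = 0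
    · have h4 : ∀ k, (v k).eval x = 0 := fun k => by
        have := congrFun (hvx x) k
        rw [h3] at this
        exact this
      rw [h4, h4, mul_zero, mul_zero]
    · have h4 := hC.sub (Q - P) (0 - P) _ _ i₂ h2 hcu h3
      rw [show Q - P - (0 - P) = Q by abel, ← hvx] at h4
      exact hC.prp Q _ _ hQ h4 j k
  · intro j k
    have h1 : v' k * C ((q j).eval α) = v' j * C ((q k).eval α) := by
      refine eq_of_ev hz0' fun x hx => ?_
      rw [eval_mul, eval_mul, eval_C, eval_C]
      have h2 : co 0 fun j => (z j₀).eval x * o j := hC.smul 0 o _ hC.zero hx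
      by_cases h3 : ev m i₂ (fun j => (z j₀).eval x * o j) u = 0
      · have h4 : ∀ k, (v' k).eval x = 0 := fun k => by
          have := congrFun (hvx' x) k
          rw [h3] at this
          exact this
        rw [h4, h4, zero_mul, zero_mul]
      · have h4 := hC.sub 0 (0 - P) _ _ i₂ h2 hcu h3
        rw [show (0 : Γ) - (0 - P) = P by abel, ← hvx'] at h4
        exact hC.prp P _ _ h4 hP k j
    have h2 : v k * C ((q j).eval α) - v j * C ((q k).eval α) =
        (v k - v' k) * C ((q j).eval α) - (v j - v' j) * C ((q k).eval α) := by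
      linear_combination h1
    rw [h2]
    exact dvd_sub (Dvd.dvd.mul_right (hvv k) _) (Dvd.dvd.mul_right (hvv j) _)

/-- **Rational curves are constant.** -/
theorem const (hq : ∀ α, ∃ P, co P fun j => (q j).eval α) {D : ℕ}
    (hr : ∀ x, x ≠ 0 → ∀ j, (r j).eval x = x ^ D * (q j).eval x⁻¹)
    (hr0 : ∀ α, ∃ P, co P fun j => (r j).eval α) : ∃ x : Fin n → Ω, ∀ j, q j = C (x j) := by
  refine const_of_wr q (fun α => ?_) fun α j k => wr hC hq (nn_zero hC hq hr hr0) α j k
  obtain ⟨P, hP⟩ := hq α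
  exact Function.ne_iff.1 (hC.ne _ _ hP)

end RS
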