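import Pool.Agent.Lib.MP_f80667_ag.Rs.Va
import Pool.Agent.Lib.MP_f80667_ag.Sb.D

/-! Values of points of group varieties at places. -/

open ZC BE PE CV GX

namespace RS

section grp

variable {F : Type} [Field F] {N N' k k' : ℕ} {ι ι' : Type} {f : ι → MvPolynomial (Fin N) F}
  {A : Gv F N' k' ι'} (M : Mf f A k) {K L Ω : Type}
  [Field K] [Field L] [Field Ω] [Algebra K L] [Algebra K Ω] [Algebra F L] [Algebra F Ω]
  [Algebra F K] [IsScalarTower F K L] [IsScalarTower F K Ω]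

/-- Proof: `res_aeval` for a vector `M.pv i` which is not `0` at the coordinates of `y`. -/
theorem red_phi (hM : M.Ok) {W : Place K L Ω} {P : (Xf f).pt L} {y : (Xf f).pt Ω}
    (h : (Xf f).red W P y) : (Xf A.a).red W (M.φ L P) (M.φ Ω y) := by
  obtain ⟨x, z, hx, hz, h1⟩ := red_iff.1 h
  obtain ⟨i, hi⟩ := hM.ne Ω y z hz
  have h2 : ∀ j, ∃ h : M.pv i x j ∈ W.V, W.res ⟨_, h⟩ = M.pv i z j := fun j =>
    res_aeval W (M.Φ i j) x z h1
  have h3 : M.pv i x ≠ 0 := by
    intro h0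
    refine hi (funext fun j => ?_)
    obtain ⟨h4, h5⟩ := h2 j
    rw [← h5]
    have h6 : (⟨M.pv i x j, h4⟩ : W.V) = 0 := Subtype.ext (congrFun h0 j)
    rw [h6, map_zero]
    rfl
  exact red_iff.2 ⟨_, _, hM.co L P x i hx h3, hM.co Ω y z i hz hi, h2⟩

/-- The morphism is compatible with homomorphisms. Proof: `co_map`, a vector `M.pv i`. -/
theorem map_phi (hM : M.Ok) {E₁ E₂ : Type} [Field E₁] [Field E₂] [Algebra F E₁] [Algebra F E₂]
    (σ : E₁ →ₐ[F] E₂) (P : (Xf f).pt E₁) :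
    M.φ E₂ ((Xf f).map σ P) = (Xf A.a).map σ (M.φ E₁ P) := by
  obtain ⟨x, hx⟩ := exists_co P
  obtain ⟨i, hi⟩ := hM.ne E₁ P x hx
  have e : M.pv i (fun j => σ (x j)) = fun j => σ (M.pv i x j) := by
    funext j
    change MvPolynomial.aeval (fun j => σ (x j)) (M.Φ i j) = σ (MvPolynomial.aeval x (M.Φ i j))
    rw [← AlgHom.comp_apply, MvPolynomial.comp_aeval]
  have h1 : M.pv i (fun j => σ (x j)) ≠ 0 := by
    intro h0
    refine hi (funext fun j => ?_)
    have h2 : σ (M.pv i x j) = 0 := by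
      have := congrFun h0 j
      rw [e] at this
      exact this
    exact (map_eq_zero σ).1 h2
  have h3 := hM.co E₂ _ _ i (co_map σ hx) h1
  rw [e] at h3
  exact co_eq h3 (co_map σ (hM.co E₁ P x i hx hi))

/-- Proof: `res_aeval` for a vector `A.mv i` which is not `0` at the coordinates of `y`, `y'`. -/
theorem red_sub (hA : A.Ok) {W : Place K L Ω} {P Q : (Xf A.a).pt L} {y y' : (Xf A.a).pt Ω}
    (h : (Xf A.a).red W P y) (h' : (Xf A.a).red W Q y') :
    (Xf A.a).red W (letI := A.G.grp L; P - Q) (letI := A.G.grp Ω; y - y') := by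
  obtain ⟨x, z, hx, hz, h1⟩ := red_iff.1 h
  obtain ⟨x', z', hx', hz', h1'⟩ := red_iff.1 h'
  obtain ⟨i, hi⟩ := hA.ne Ω y y' z z' hz hz'
  have h2 : ∀ j, ∃ h : A.mv i x x' j ∈ W.V, W.res ⟨_, h⟩ = A.mv i z z' j := fun j =>
    res_aeval W (A.m i j) (Sum.elim x x') (Sum.elim z z') fun s => by
      rcases s with s | s
      · exact h1 s
      · exact h1' s
  have h3 : A.mv i x x' ≠ 0 := by
    intro h0
    refine hi (funext fun j => ?_)
    obtain ⟨h4, h5⟩ := h2 j
    rw [← h5]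
    have h6 : (⟨A.mv i x x' j, h4⟩ : W.V) = 0 := Subtype.ext (congrFun h0 j)
    rw [h6, map_zero]
    rfl
  refine red_iff.2 ⟨_, _, hA.sub L P Q _ x x' i hx hx' ?_ h3,
    hA.sub Ω y y' _ z z' i hz hz' ?_ hi, h2⟩
  · let _ : AddCommGroup ((Xf A.a).pt L) := A.G.grp L
    exact sub_add_cancel P Q
  · let _ : AddCommGroup ((Xf A.a).pt Ω) := A.G.grp Ω
    exact sub_add_cancel y y'

/-- The point `0`. -/
private theorem red_zero (hA : A.Ok) (W : Place K L Ω) :
    (Xf A.a).red W (A.G.grp L).zero (A.G.grp Ω).zero := by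
  refine red_iff.2 ⟨_, _, hA.co_zero L, hA.co_zero Ω, fun j => ?_⟩
  have e := IsScalarTower.algebraMap_apply F K L (A.o j)
  have e' := IsScalarTower.algebraMap_apply F K Ω (A.o j)
  rw [e']
  have h1 : algebraMap F L (A.o j) ∈ W.V := by
    rw [e]
    exact W.mem _
  refine ⟨h1, ?_⟩
  rw [← W.res_k]
  exact congrArg W.res (Subtype.ext e)

/-- Proof: induction, `P + Q = P - (0 - Q)`, coordinates of `0`: `Gv.Ok.oc`, `gr_zero`. -/
theorem red_sum (hA : A.Ok) {W : Place K L Ω} {s : Type} (T : Finset s) (P : s → (Xf A.a).pt L)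
    (y : s → (Xf A.a).pt Ω) (h : ∀ i ∈ T, (Xf A.a).red W (P i) (y i)) :
    (Xf A.a).red W (letI := A.G.grp L; ∑ i ∈ T, P i) (letI := A.G.grp Ω; ∑ i ∈ T, y i) := by
  classical
  let _ : AddCommGroup ((Xf A.a).pt L) := A.G.grp L
  let _ : AddCommGroup ((Xf A.a).pt Ω) := A.G.grp Ω
  change (Xf A.a).red W (∑ i ∈ T, P i) (∑ i ∈ T, y i)
  have h0 : (Xf A.a).red W (0 : (Xf A.a).pt L) (0 : (Xf A.a).pt Ω) := red_zero hA W
  induction T using Finset.induction_on with
  | empty =>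
    rw [Finset.sum_empty, Finset.sum_empty]
    exact h0
  | insert a T ha ih =>
    rw [Finset.sum_insert ha, Finset.sum_insert ha]
    have h1 := h a (Finset.mem_insert_self a T)
    have h2 := ih fun i hi => h i (Finset.mem_insert_of_mem hi)
    have h3 : (Xf A.a).red W ((0 : (Xf A.a).pt L) - ∑ i ∈ T, P i)
        ((0 : (Xf A.a).pt Ω) - ∑ i ∈ T, y i) := red_sub hA h0 h2
    have h4 : (Xf A.a).red W (P a - (0 - ∑ i ∈ T, P i)) (y a - (0 - ∑ i ∈ T, y i)) :=
      red_sub hA h1 h3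
    rwa [sub_sub_eq_add_sub, sub_zero, sub_sub_eq_add_sub, sub_zero] at h4

end grp

end RS
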