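import Pool.Agent.Lib.MP_f80667_ag.Rs.Pa3
import Pool.Agent.Lib.MP_f80667_ag.Rs.Va2

/-!
**The sum of the image in a group variety of a cycle which is rationally equivalent to `0` is `0`.**

For a function field `E / K`, `g ∈ E` transcendental over `K`, `k₀ = K (g)` and a point `P` over `E` the point
`a = ∑ φ (σ P)`, `σ` the embeddings of `E` over `k₀` in the algebraic closure `L` of `E`, is a point over `k₀`, so it is constant
(`exists_cst`); its value at a place `W` of `L` above a zero of `g` is `∑ m_w φ (P (w))`, `w` the zeros of `g` and `m_w` their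
orders (`sum_emb`).
-/

open ZC BE PE CV GX

namespace RS

variable {F : Type} [Field F] {N N' k k' : ℕ} {ι ι' : Type} {f : ι → MvPolynomial (Fin N) F}
  {A : Gv F N' k' ι'} {M : Mf f A k} {K E Ω : Type} [Field K] [CharZero K] [Field E] [Field Ω]
  [Algebra K E] [Algebra K Ω] [IsAlgClosure K Ω] [Algebra F K] [Algebra F E] [Algebra F Ω]
  [IsScalarTower F K E] [IsScalarTower F K Ω]

/-- The trace. -/
noncomputable def tr (M : Mf f A k) (k₀ : IntermediateField K E) [FiniteDimensional k₀ E]
    (P : (Xf f).pt E) : (Xf A.a).pt (AlgebraicClosure E) :=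
  letI := A.G.grp (AlgebraicClosure E)
  ∑ σ : E →ₐ[k₀] AlgebraicClosure E, M.φ (AlgebraicClosure E)
    ((Xf f).map ((σ.restrictScalars K).restrictScalars F) P)

/-- The trace is fixed by the automorphisms over `k₀`. Proof: `map_phi`, `A.G.map_add`; `σ ↦ τ σ` is a bijection. -/
theorem tr_fix (hM : M.Ok) (k₀ : IntermediateField K E) [FiniteDimensional k₀ E]
    (P : (Xf f).pt E) (τ : AlgebraicClosure E ≃ₐ[k₀] AlgebraicClosure E) :
    (Xf A.a).map (((τ : AlgebraicClosure E →ₐ[k₀] AlgebraicClosure E).restrictScalars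
      K).restrictScalars F) (tr M k₀ P) = tr M k₀ P := by
  let _ := A.G.grp (AlgebraicClosure E)
  let τ' : AlgebraicClosure E →ₐ[F] AlgebraicClosure E :=
    ((τ : AlgebraicClosure E →ₐ[k₀] AlgebraicClosure E).restrictScalars K).restrictScalars F
  let m : (Xf A.a).pt (AlgebraicClosure E) →+ (Xf A.a).pt (AlgebraicClosure E) :=
    AddMonoidHom.mk' ((Xf A.a).map τ') (A.G.map_add _ _ τ')
  let e : (E →ₐ[k₀] AlgebraicClosure E) ≃ (E →ₐ[k₀] AlgebraicClosure E) :=
    { toFun := fun σ => (τ : AlgebraicClosure E →ₐ[k₀] AlgebraicClosure E).comp σ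
      invFun := fun σ => (τ.symm : AlgebraicClosure E →ₐ[k₀] AlgebraicClosure E).comp σ
      left_inv := fun σ => AlgHom.ext fun a => τ.symm_apply_apply (σ a)
      right_inv := fun σ => AlgHom.ext fun a => τ.apply_symm_apply (σ a) }
  have h1 : m (tr M k₀ P) = ∑ σ : E →ₐ[k₀] AlgebraicClosure E, m (M.φ (AlgebraicClosure E)
      ((Xf f).map ((σ.restrictScalars K).restrictScalars F) P)) :=
    map_sum m (fun σ : E →ₐ[k₀] AlgebraicClosure E => M.φ (AlgebraicClosure E)
      ((Xf f).map ((σ.restrictScalars K).restrictScalars F) P)) Finset.univ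
  have h2 : ∀ σ : E →ₐ[k₀] AlgebraicClosure E, m (M.φ (AlgebraicClosure E)
      ((Xf f).map ((σ.restrictScalars K).restrictScalars F) P)) = M.φ (AlgebraicClosure E)
        ((Xf f).map (((e σ).restrictScalars K).restrictScalars F) P) := by
    intro σ
    have h3 := map_phi M hM τ' ((Xf f).map ((σ.restrictScalars K).restrictScalars F) P)
    have h4 := (fct f).comp _ _ _ ((σ.restrictScalars K).restrictScalars F) τ' P
    rw [← h4] at h3
    exact h3.symm
  have h5 := Equiv.sum_comp e fun σ : E →ₐ[k₀] AlgebraicClosure E => M.φ (AlgebraicClosure E)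
    ((Xf f).map ((σ.restrictScalars K).restrictScalars F) P)
  exact h1.trans ((Finset.sum_congr rfl fun σ _ => h2 σ).trans h5)

/-- Proof: `tr_fix`, `exists_fixed` (`AlgebraicClosure E` is an algebraic closure of `k₀`), `exists_cst`, `red_cst`. -/
theorem tr_cst (hA : A.Ok) (hM : M.Ok) {g : E} (hg : Transcendental K g)
    {k₀ : IntermediateField K E} (hk : k₀ = IntermediateField.adjoin K {g})
    [FiniteDimensional k₀ E] (P : (Xf f).pt E) :
    ∃ c : (Xf A.a).pt Ω, ∀ W : Place K (AlgebraicClosure E) Ω, (Xf A.a).red W (tr M k₀ P) c := by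
  have : Algebra.IsAlgebraic k₀ E := Algebra.IsAlgebraic.of_finite k₀ E
  have hacl : IsAlgClosure k₀ (AlgebraicClosure E) :=
    { isAlgClosed := inferInstance
      isAlgebraic := Algebra.IsAlgebraic.trans k₀ E (AlgebraicClosure E) }
  have : IsScalarTower F k₀ E := IsScalarTower.of_algebraMap_eq fun a => rfl
  have : IsScalarTower F k₀ (AlgebraicClosure E) := by
    refine IsScalarTower.of_algebraMap_eq fun a => ?_
    rw [IsScalarTower.algebraMap_apply F E (AlgebraicClosure E),
      IsScalarTower.algebraMap_apply k₀ E (AlgebraicClosure E),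
      ← IsScalarTower.algebraMap_apply F k₀ E]
  have : CharZero k₀ := inferInstance
  obtain ⟨P₀, hP₀⟩ := exists_fixed (k := k₀) (L := AlgebraicClosure E) hA.hm (tr M k₀ P)
    fun σ => tr_fix hM k₀ P σ
  obtain ⟨x, hx⟩ := exists_cst (L := AlgebraicClosure E) hA hg hk P₀
    (IsScalarTower.toAlgHom F k₀ (AlgebraicClosure E)) fun a => rfl
  rw [hP₀] at hx
  exact red_cst hx

end RS
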