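import Pool.Agent.Lib.MP_f80667_ag.Rs.Nb3

/-! The number of embeddings with a given place. -/

open ZC BE

namespace RS

variable {K E Ω : Type} [Field K] [CharZero K] [Field E] [Field Ω] [Algebra K E] [Algebra K Ω]
  [IsAlgClosure K Ω]

/-- A sum over the embeddings `σ` of `E` over `k₀ = K (g)` of a function of the restriction of `W` along `σ`. Proof: let `Z` be the
set of the places with `g ∈ w.V.nonunits` (`Dz.sum_zeros` for `T = Z`): the number of the `σ` with restriction `w` is at most `m w`
(`card_le`), every `σ` has its restriction in `Z` (`exists_cm`, `cm_nonunits`), the number of all `σ` is `[E : k₀]`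
(`AlgHom.card`) `= ∑ w ∈ Z, m w` (`Dz.sum_zeros`): so equality for every `w ∈ Z`. -/
theorem sum_emb (hE : IsFunField K E) {g : E} (hg : Transcendental K g)
    {k₀ : IntermediateField K E} (hk : k₀ = IntermediateField.adjoin K {g})
    [FiniteDimensional k₀ E] {W : Place K (AlgebraicClosure E) Ω}
    (hW : algebraMap E (AlgebraicClosure E) g ∈ W.V.nonunits) (Z : Finset (Place K E Ω))
    (m : Place K E Ω → ℤ) (h1 : ∀ w, w ∈ Z ↔ g ∈ w.V.nonunits) (h2 : ∀ w ∈ Z, w.IsOrd g (m w))
    {A : Type} [AddCommGroup A] (c : Place K E Ω → A) (b : (E →ₐ[k₀] AlgebraicClosure E) → A)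
    (hb : ∀ (σ : E →ₐ[k₀] AlgebraicClosure E) (w : Place K E Ω),
      Cm W (σ : E →+* AlgebraicClosure E) w → b σ = c w) :
    ∑ σ, b σ = ∑ w ∈ Z, m w • c w := by
  classical
  subst hk
  have hcl : IsAlgClosed Ω := IsAlgClosure.isAlgClosed K
  have halg : Algebra.IsAlgebraic K Ω := IsAlgClosure.isAlgebraic
  have hchar : CharZero (IntermediateField.adjoin K {g}) :=
    charZero_of_injective_algebraMap (algebraMap K _).injective
  have hg0 : g ≠ 0 := by
    rintro rfl
    exact hg isAlgebraic_zero
  have hσg : ∀ σ : E →ₐ[IntermediateField.adjoin K {g}] AlgebraicClosure E,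
      σ g = algebraMap E (AlgebraicClosure E) g := by
    intro σ
    have h3 : g = algebraMap (IntermediateField.adjoin K {g}) E
      ⟨g, IntermediateField.mem_adjoin_simple_self K g⟩ := rfl
    have h4 := σ.commutes ⟨g, IntermediateField.mem_adjoin_simple_self K g⟩
    rw [← h3] at h4
    rw [h4]
    exact IsScalarTower.algebraMap_apply (IntermediateField.adjoin K {g}) E
      (AlgebraicClosure E) _
  have hex : ∀ σ : E →ₐ[IntermediateField.adjoin K {g}] AlgebraicClosure E,
      ∃ w : Place K E Ω, Cm W (σ : E →+* AlgebraicClosure E) w := by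
    intro σ
    refine exists_cm W (σ.restrictScalars K) hg0 ?_
    have h3 : (σ.restrictScalars K) g = algebraMap E (AlgebraicClosure E) g := hσg σ
    rw [h3]
    exact hW
  choose r hr using hex
  have hrZ : ∀ σ, r σ ∈ Z := by
    intro σ
    rw [h1, ← cm_nonunits (hr σ)]
    have h3 : (σ : E →+* AlgebraicClosure E) g = algebraMap E (AlgebraicClosure E) g := hσg σ
    rw [h3]
    exact hW
  have hle : ∀ w ∈ Z, ((Finset.univ.filter fun σ => r σ = w).card : ℤ) ≤ m w := by
    intro w hw
    refine card_le rfl hW (h2 w hw) ((h1 w).1 hw) _ fun σ hσ => ?_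
    rw [← (Finset.mem_filter.1 hσ).2]
    exact hr σ
  have hsum : ∑ w ∈ Z, ((Finset.univ.filter fun σ => r σ = w).card : ℤ) = ∑ w ∈ Z, m w := by
    rw [Dz.sum_zeros hE hg Z m h1 h2, ← AlgHom.card (IntermediateField.adjoin K {g}) E
      (AlgebraicClosure E), ← Nat.cast_sum, ← Finset.card_univ]
    congr 1
    exact (Finset.card_eq_sum_card_fiberwise fun σ _ => hrZ σ).symm
  have heq := (Finset.sum_eq_sum_iff_of_le hle).1 hsum
  calc ∑ σ, b σ = ∑ σ, c (r σ) := Finset.sum_congr rfl fun σ _ => hb σ _ (hr σ)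
    _ = ∑ w ∈ Z, ∑ σ ∈ Finset.univ.filter (fun σ => r σ = w), c (r σ) :=
        (Finset.sum_fiberwise_of_maps_to (fun σ _ => hrZ σ) _).symm
    _ = ∑ w ∈ Z, m w • c w := by
        refine Finset.sum_congr rfl fun w hw => ?_
        rw [← heq w hw, natCast_zsmul, ← Finset.sum_const]
        exact Finset.sum_congr rfl fun σ hσ => by rw [(Finset.mem_filter.1 hσ).2]

end RS
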