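import Pool.Agent.Lib.MP_f80667_ag.Rs.M
import Pool.Agent.Lib.MP_f80667_ag.Rs.Nc

/-! The value of the trace. -/

open ZC BE PE CV GX

namespace RS

variable {F : Type} [Field F] {N N' k k' : ℕ} {ι ι' : Type} {f : ι → MvPolynomial (Fin N) F}
  {A : Gv F N' k' ι'} {M : Mf f A k} {K E Ω : Type} [Field K] [CharZero K] [Field E] [Field Ω]
  [Algebra K E] [Algebra K Ω] [IsAlgClosure K Ω] [Algebra F K] [Algebra F E] [Algebra F Ω]
  [IsScalarTower F K E] [IsScalarTower F K Ω]

/-- Proof: take a place `W` above one of the places of `Z` (`Z` is not empty: `Dz.sum_zeros`; `exists_above`). `c w = φ` of the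
value of `P` at `w` (`exists_red`), `b σ = φ` of the value of `σ P` at `W`: `b σ = c w` for `Cm W σ w` (`red_cm`, `red_uniq`);
`red_sum`, `red_phi`: the value of the trace at `W` is `∑ b σ = ∑ m w • c w` (`sum_emb`). -/
theorem half (hf : Hm f) (hA : A.Ok) (hM : M.Ok) (hE : IsFunField K E) {g : E}
    (hg : Transcendental K g) {k₀ : IntermediateField K E}
    (hk : k₀ = IntermediateField.adjoin K {g}) [FiniteDimensional k₀ E] (P : (Xf f).pt E)
    (Z : Finset (Place K E Ω)) (m : Place K E Ω → ℤ) (h1 : ∀ w, w ∈ Z ↔ g ∈ w.V.nonunits)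
    (h2 : ∀ w ∈ Z, w.IsOrd g (m w)) (y : Place K E Ω → (Xf f).pt Ω)
    (hy : ∀ w ∈ Z, (Xf f).red w P (y w)) {c : (Xf A.a).pt Ω}
    (hc : ∀ W : Place K (AlgebraicClosure E) Ω, (Xf A.a).red W (tr M k₀ P) c) :
    (letI := A.G.grp Ω; ∑ w ∈ Z, m w • M.φ Ω (y w)) = c := by
  have hΩ : IsAlgClosed Ω := IsAlgClosure.isAlgClosed K
  have hne : Z.Nonempty := by
    rw [Finset.nonempty_iff_ne_empty]
    intro h0
    have h3 := Dz.sum_zeros hE hg Z m h1 h2
    rw [← hk] at h3
    have h4 : 0 < Module.finrank k₀ E := Module.finrank_pos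
    rw [h0, Finset.sum_empty] at h3
    omega
  obtain ⟨w₀, hw₀⟩ := hne
  obtain ⟨W, hW⟩ := exists_above w₀
  have hgW : algebraMap E (AlgebraicClosure E) g ∈ W.V.nonunits :=
    (cm_nonunits (cm_above hW) g).2 ((h1 w₀).1 hw₀)
  have hgk : g ∈ k₀ := by
    rw [hk]
    exact IntermediateField.mem_adjoin_simple_self K g
  have hex : ∀ σ : E →ₐ[k₀] AlgebraicClosure E, ∃ z : (Xf f).pt Ω,
      (Xf f).red W ((Xf f).map ((σ.restrictScalars K).restrictScalars F) P) z := fun σ =>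
    exists_red hf W _
  choose Y hY using hex
  have hb : ∀ (σ : E →ₐ[k₀] AlgebraicClosure E) (w : Place K E Ω),
      Cm W (σ : E →+* AlgebraicClosure E) w → M.φ Ω (Y σ) = M.φ Ω (y w) := by
    intro σ w hσ
    have hσg : σ g = algebraMap E (AlgebraicClosure E) g := σ.commutes ⟨g, hgk⟩
    have hwZ : w ∈ Z := by
      rw [h1, ← cm_nonunits hσ g]
      change σ g ∈ W.V.nonunits
      rw [hσg]
      exact hgW
    have h3 : (Xf f).red W ((Xf f).map ((σ.restrictScalars K).restrictScalars F) P) (y w) :=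
      red_cm ((σ.restrictScalars K).restrictScalars F) hσ (hy w hwZ)
    rw [red_uniq (hY σ) h3]
  let _ : AddCommGroup ((Xf A.a).pt Ω) := A.G.grp Ω
  have h5 := sum_emb hE hg hk hgW Z m h1 h2 (fun w => M.φ Ω (y w)) (fun σ => M.φ Ω (Y σ)) hb
  have h6 := red_sum hA (W := W) (Finset.univ : Finset (E →ₐ[k₀] AlgebraicClosure E))
    (fun σ => M.φ (AlgebraicClosure E) ((Xf f).map ((σ.restrictScalars K).restrictScalars F) P))
    (fun σ => M.φ Ω (Y σ)) fun σ _ => red_phi M hM (hY σ)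
  have h7 := red_uniq (hc W) h6
  rw [h7]
  exact h5.symm

end RS
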