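import Pool.Agent.Lib.MP_f80667_ag.Be.PlX
import Pool.Agent.Lib.MP_f80667_ag.Dz.Main

/-! Places and embeddings of function fields. -/

open ZC BE

namespace RS

variable {K E L Ω : Type} [Field K] [Field E] [Field L] [Field Ω] [Algebra K E] [Algebra K L]
  [Algebra K Ω]

/-- The place `w` is the restriction of the place `W` along `σ`. -/
def Cm (W : Place K L Ω) (σ : E →+* L) (w : Place K E Ω) : Prop :=
  (∀ a : E, σ a ∈ W.V ↔ a ∈ w.V) ∧
    ∀ (a : E) (h : a ∈ w.V) (h' : σ a ∈ W.V), W.res ⟨_, h'⟩ = w.res ⟨a, h⟩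

/-- Proof: `W.V.comap σ` with the residue map `W.res ∘ σ`; it is not everything because of `g⁻¹`. -/
theorem exists_cm (W : Place K L Ω) (σ : E →ₐ[K] L) {g : E} (h0 : g ≠ 0)
    (hg : σ g ∈ W.V.nonunits) : ∃ w : Place K E Ω, Cm W (σ : E →+* L) w := by
  have hσ0 : σ g ≠ 0 := fun h => h0 ((map_eq_zero σ).1 h)
  let φ : (W.V.comap (σ : E →+* L)) →+* W.V :=
    { toFun := fun x => ⟨σ x.1, x.2⟩
      map_one' := by ext; simp
      map_zero' := by ext; simp
      map_mul' := by intro x y; ext; simp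
      map_add' := by intro x y; ext; simp }
  have hφ : ∀ x : W.V.comap (σ : E →+* L), ((φ x : W.V) : L) = σ x.1 := fun _ => rfl
  refine ⟨{ V := W.V.comap (σ : E →+* L)
            ne_top := ?_
            mem := ?_
            res := W.res.comp φ
            res_k := ?_
            res_zero := ?_ }, ?_, ?_⟩
  · intro htop
    have h1 : g⁻¹ ∈ W.V.comap (σ : E →+* L) := by rw [htop]; exact ValuationSubring.mem_top _
    have h2 : σ g⁻¹ ∈ W.V := h1
    rcases (ValuationSubring.mem_nonunits_iff_or _).1 hg with h | h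
    · exact hσ0 h
    · exact h (by rw [← map_inv₀]; exact h2)
  · intro a
    have h1 : σ (algebraMap K E a) ∈ W.V := by
      rw [σ.commutes]
      exact W.mem a
    exact h1
  · intro a
    rw [← W.res_k a, RingHom.comp_apply]
    congr 1
    apply Subtype.ext
    rw [hφ]
    exact σ.commutes a
  · intro x hx
    rw [RingHom.comp_apply]
    apply W.res_zero
    intro hu
    apply hx
    by_cases hx0 : (x : E) = 0
    · exfalso
      have h1 : φ x = 0 := by
        apply Subtype.ext
        rw [hφ, hx0, map_zero]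
        rfl
      rw [h1] at hu
      exact not_isUnit_zero hu
    · obtain ⟨u, hu⟩ := hu
      have h2 : ((u⁻¹ : W.Vˣ) : W.V) * φ x = 1 := by rw [← hu]; simp
      have h3 : (((u⁻¹ : W.Vˣ) : W.V) : L) * σ x.1 = 1 := by
        exact congrArg (fun t : W.V => (t : L)) h2
      have h4 : σ (x : E)⁻¹ = (((u⁻¹ : W.Vˣ) : W.V) : L) := by
        rw [map_inv₀]
        exact (eq_inv_of_mul_eq_one_left h3).symm
      have h5 : (x : E)⁻¹ ∈ W.V.comap (σ : E →+* L) := by
        have : σ (x : E)⁻¹ ∈ W.V := by rw [h4]; exact ((u⁻¹ : W.Vˣ) : W.V).2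
        exact this
      exact IsUnit.of_mul_eq_one ⟨(x : E)⁻¹, h5⟩ (Subtype.ext (mul_inv_cancel₀ hx0))
  · intro a
    exact Iff.rfl
  · intro a h h'
    rfl

/-- Two places are equal if their valuation rings and residue maps are. -/
theorem cm_uniq {W : Place K L Ω} {σ : E →+* L} {w w' : Place K E Ω} (h : Cm W σ w)
    (h' : Cm W σ w') : w = w' := by
  refine Place.ext' (SetLike.ext fun a => (h.1 a).symm.trans (h'.1 a)) ?_
  intro x hx hx'
  have hm : σ x ∈ W.V := (h.1 x).2 hx
  exact (h.2 x hx hm).symm.trans (h'.2 x hx' hm)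

theorem cm_nonunits {W : Place K L Ω} {σ : E →+* L} {w : Place K E Ω} (h : Cm W σ w) (a : E) :
    σ a ∈ W.V.nonunits ↔ a ∈ w.V.nonunits := by
  rw [ValuationSubring.mem_nonunits_iff_or, ValuationSubring.mem_nonunits_iff_or,
    map_eq_zero, ← map_inv₀, h.1]

/-- `Above` is `Cm` for the inclusion. -/
theorem cm_above {w : Place K E Ω} {W : Place K (AlgebraicClosure E) Ω} (h : Above w W) :
    Cm W (algebraMap E (AlgebraicClosure E)) w := h

end RS
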