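import Pool.Agent.Lib.MP_f80667_ag.Rs.Na

/-! Powers of a non-unit are divisible by algebraic elements. -/

open ZC BE

namespace RS

variable {K L Ω : Type} [Field K] [Field L] [Field Ω] [Algebra K L] [Algebra K Ω]

private theorem na2_val (W : Place K L Ω) {a : K} (ha : a ≠ 0) :
    W.V.valuation (algebraMap K L a) = 1 := by
  have h1 : W.V.valuation (algebraMap K L a) ≤ 1 := (W.V.valuation_le_one_iff _).2 (W.mem a)
  have h2 : W.V.valuation (algebraMap K L a⁻¹) ≤ 1 := (W.V.valuation_le_one_iff _).2 (W.mem a⁻¹)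
  have h3 : W.V.valuation (algebraMap K L a) * W.V.valuation (algebraMap K L a⁻¹) = 1 := by
    rw [← map_mul, ← map_mul, mul_inv_cancel₀ ha, map_one, map_one]
  refine le_antisymm h1 ?_
  calc (1 : W.V.ValueGroup) = W.V.valuation (algebraMap K L a) * W.V.valuation (algebraMap K L a⁻¹) := h3.symm
    _ ≤ W.V.valuation (algebraMap K L a) * 1 := mul_le_mul_right h2 _
    _ = W.V.valuation (algebraMap K L a) := mul_one _

private theorem na2_poly (W : Place K L Ω) {g : L} (hg : g ∈ W.V) (p : Polynomial K) :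
    Polynomial.aeval g p ∈ W.V := by
  induction p using Polynomial.induction_on' with
  | add p q hp hq =>
    rw [map_add]
    exact W.V.add_mem _ _ hp hq
  | monomial n a =>
    rw [Polynomial.aeval_monomial]
    exact W.V.mul_mem _ _ (W.mem a) (pow_mem hg n)

private theorem na2_field (W : Place K L Ω) {g : L} (hg : g ∈ W.V.nonunits) {c : L}
    (hc : c ∈ IntermediateField.adjoin K {g}) : ∃ k : ℕ, g ^ k * c ∈ W.V := by
  have hgV : g ∈ W.V := W.V.nonunits_subset hg
  obtain ⟨r, s, rfl⟩ := (IntermediateField.mem_adjoin_simple_iff K c).1 hc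
  by_cases hs : Polynomial.aeval g s = 0
  · refine ⟨0, ?_⟩
    rw [hs, div_zero, mul_zero]
    exact W.V.zero_mem
  have hs0 : s ≠ 0 := by
    rintro rfl
    exact hs (map_zero _)
  obtain ⟨q, hq, hnd⟩ := Polynomial.exists_eq_pow_rootMultiplicity_mul_and_not_dvd s hs0 0
  obtain ⟨n, hn⟩ : ∃ n, n = s.rootMultiplicity 0 := ⟨_, rfl⟩
  rw [← hn, Polynomial.C_0, sub_zero] at hq
  rw [Polynomial.C_0, sub_zero] at hnd
  have hq0 : q.coeff 0 ≠ 0 := fun h => hnd (Polynomial.X_dvd_iff.2 h)
  have hu : W.V.valuation (Polynomial.aeval g q) = 1 := by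
    have h1 : Polynomial.aeval g q = algebraMap K L (q.coeff 0) + g * Polynomial.aeval g q.divX := by
      conv_lhs => rw [← q.divX_mul_X_add]
      rw [map_add, map_mul, Polynomial.aeval_X, Polynomial.aeval_C]
      ring
    have h2 : W.V.valuation (g * Polynomial.aeval g q.divX) < W.V.valuation (algebraMap K L (q.coeff 0)) := by
      rw [na2_val W hq0, map_mul]
      have h3 : W.V.valuation g < 1 := (W.V.mem_nonunits_iff).1 hg
      have h4 : W.V.valuation (Polynomial.aeval g q.divX) ≤ 1 :=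
        (W.V.valuation_le_one_iff _).2 (na2_poly W hgV _)
      calc W.V.valuation g * W.V.valuation (Polynomial.aeval g q.divX) ≤ W.V.valuation g * 1 :=
            mul_le_mul_right h4 _
        _ < 1 := by rw [mul_one]; exact h3
    rw [h1, Valuation.map_add_eq_of_lt_left _ h2, na2_val W hq0]
  have hs1 : Polynomial.aeval g s = g ^ n * Polynomial.aeval g q := by
    conv_lhs => rw [hq]
    rw [map_mul, map_pow, Polynomial.aeval_X]
  rw [hs1] at hs
  refine ⟨n, ?_⟩
  have h5 : g ^ n * (Polynomial.aeval g r / Polynomial.aeval g s) =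
      Polynomial.aeval g r * (Polynomial.aeval g q)⁻¹ := by
    rw [hs1]
    have h6 : g ^ n ≠ 0 := left_ne_zero_of_mul hs
    have h7 : Polynomial.aeval g q ≠ 0 := right_ne_zero_of_mul hs
    field_simp
  rw [h5]
  refine W.V.mul_mem _ _ (na2_poly W hgV r) ?_
  rw [← W.V.valuation_le_one_iff, map_inv₀, hu, inv_one]

/-- For `g` not a unit at `W` and `b ≠ 0` algebraic over `K (g)` a power of `g` is divisible by `b` at `W`. Proof: if `b` is not integral
`k = 0` does. Let `b ∈ W.V`, `c₀ + c₁ b + .. + c_d b ^ d = 0`, `c_i ∈ K[g]`, `c₀ ≠ 0` (from a polynomial over `K (g)`, clear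
denominators, divide by a power of `X`). `c₀ = P (g)` with `P = X ^ k Q`, `Q (0) ≠ 0`: `Q (g)` is a unit at `W` (its residue is
`Q (0)`). So `g ^ k = - b (..) / Q (g)`. -/
theorem arch (W : Place K L Ω) {g : L} (hg : g ∈ W.V.nonunits) {b : L} (hb : b ≠ 0)
    (hb' : IsAlgebraic (IntermediateField.adjoin K {g}) b) : ∃ k : ℕ, g ^ k / b ∈ W.V := by
  have hbI : b ∈ W.V ∨ b⁻¹ ∈ W.V := W.V.mem_or_inv_mem b
  rcases hbI with hbV | hbV
  · have h1 : b⁻¹ ∈ Algebra.adjoin (IntermediateField.adjoin K {g}) {b} :=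
      Subalgebra.inv_mem_of_algebraic (Algebra.adjoin (IntermediateField.adjoin K {g}) {b})
        (x := ⟨b, Algebra.self_mem_adjoin_singleton _ b⟩) hb'
    have key : ∀ z ∈ Algebra.adjoin (IntermediateField.adjoin K {g}) {b}, ∃ k : ℕ, g ^ k * z ∈ W.V := by
      intro z hz
      have hgV : g ∈ W.V := W.V.nonunits_subset hg
      induction hz using Algebra.adjoin_induction with
      | mem x hx =>
        refine ⟨0, ?_⟩
        rw [Set.mem_singleton_iff.1 hx, pow_zero, one_mul]
        exact hbV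
      | algebraMap c => exact na2_field W hg c.2
      | add x y _ _ hx hy =>
        obtain ⟨m, hm⟩ := hx
        obtain ⟨n, hn⟩ := hy
        refine ⟨m + n, ?_⟩
        have h2 : g ^ (m + n) * (x + y) = g ^ n * (g ^ m * x) + g ^ m * (g ^ n * y) := by ring
        rw [h2]
        exact W.V.add_mem _ _ (W.V.mul_mem _ _ (pow_mem hgV n) hm)
          (W.V.mul_mem _ _ (pow_mem hgV m) hn)
      | mul x y _ _ hx hy =>
        obtain ⟨m, hm⟩ := hx
        obtain ⟨n, hn⟩ := hy
        refine ⟨m + n, ?_⟩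
        have h2 : g ^ (m + n) * (x * y) = (g ^ m * x) * (g ^ n * y) := by ring
        rw [h2]
        exact W.V.mul_mem _ _ hm hn
    obtain ⟨k, hk⟩ := key _ h1
    refine ⟨k, ?_⟩
    rw [div_eq_mul_inv]
    exact hk
  · refine ⟨0, ?_⟩
    rw [pow_zero, one_div]
    exact hbV

end RS
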