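import Pool.Agent.Lib.MP_f80667_ag.Rs.Na

/-! Embeddings with the same place: the difference is divisible by the difference at a uniformizer. -/

open ZC BE

namespace RS

variable {K E L Ω : Type} [Field K] [CharZero K] [Field E] [Field L] [Field Ω] [Algebra K E]
  [Algebra K L] [Algebra K Ω] [Algebra.IsAlgebraic K Ω]

/-- The constants. -/
private noncomputable def nbC {K L Ω : Type} [Field K] [Field L] [Field Ω] [Algebra K L]
    [Algebra K Ω] (W : Place K L Ω) : K →+* W.V where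
  toFun a := ⟨algebraMap K L a, W.mem a⟩
  map_one' := Subtype.ext (map_one _)
  map_mul' a b := Subtype.ext (map_mul _ a b)
  map_zero' := Subtype.ext (map_zero _)
  map_add' a b := Subtype.ext (map_add _ a b)

private theorem nb_ev {K L Ω : Type} [Field K] [Field L] [Field Ω] [Algebra K L]
    [Algebra K Ω] (W : Place K L Ω) (p : Polynomial K) (x : W.V) :
    (((p.map (nbC W)).eval x : W.V) : L) = Polynomial.aeval (x : L) p := by
  rw [Polynomial.eval_map, Polynomial.aeval_def]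
  exact Polynomial.hom_eval₂ p (nbC W) W.V.subtype x

private theorem nb_res {K L Ω : Type} [Field K] [Field L] [Field Ω] [Algebra K L]
    [Algebra K Ω] (W : Place K L Ω) (p : Polynomial K) (x : W.V) :
    W.res ((p.map (nbC W)).eval x) = Polynomial.aeval (W.res x) p := by
  have h : W.res.comp (nbC W) = algebraMap K Ω := RingHom.ext fun a => W.res_k a
  rw [Polynomial.eval_map, Polynomial.aeval_def, Polynomial.hom_eval₂, h]

private theorem nb_zero {K L Ω : Type} [Field K] [Field L] [Field Ω] [Algebra K L]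
    [Algebra K Ω] (W : Place K L Ω) {x : W.V} (h : W.res x = 0) : (x : L) ∈ W.V.nonunits := by
  rw [ValuationSubring.coe_mem_nonunits_iff, IsLocalRing.mem_maximalIdeal, mem_nonunits_iff]
  intro hu
  exact (hu.map W.res).ne_zero h

private theorem nb_unit {K L Ω : Type} [Field K] [Field L] [Field Ω] [Algebra K L]
    [Algebra K Ω] (W : Place K L Ω) {x : W.V} (h : W.res x ≠ 0) :
    (x : L) ≠ 0 ∧ (x : L)⁻¹ ∈ W.V := by
  have hu : IsUnit x := by
    by_contra hcon
    exact h (W.res_zero x hcon)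
  obtain ⟨v, hv⟩ := hu.exists_right_inv
  have h3 : (x : L) * (v : L) = 1 := congrArg Subtype.val hv
  refine ⟨fun h0 => ?_, ?_⟩
  · rw [h0, zero_mul] at h3
    exact zero_ne_one h3
  · rw [← eq_inv_of_mul_eq_one_right h3]
    exact v.2

section lem

variable {W : Place K L Ω} {w : Place K E Ω} {σ τ : E →ₐ[K] L} (hσ : Cm W (σ : E →+* L) w)
  (hτ : Cm W (τ : E →+* L) w) {π : E} (hπ0 : π ≠ 0)
  (hπ : ∀ x : E, x ∈ w.V.nonunits ↔ x / π ∈ w.V)

include hσ hτ hπ0 hπ

/-- One step. Proof: `p` the minimal polynomial of `w.res x` over `K`: `p (x)` has residue `0`, so `p (x) = π y`, `y ∈ w.V`;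
`p (σ x) - p (τ x) = (σ x - τ x) u`, where the residue of `u` is `p' (w.res x) ≠ 0` (separable), `u` a polynomial in `σ x`, `τ x`; and
`σ (π y) - τ (π y) = σ π (σ y - τ y) + (σ π - τ π) τ y`. -/
theorem dif_step (x : E) (hx : x ∈ w.V) : ∃ y ∈ w.V, ∃ u v : L, u ∈ W.V ∧ v ∈ W.V ∧
    σ x - τ x = u * σ π * (σ y - τ y) + v * (σ π - τ π) := by
  obtain ⟨r, hr⟩ : ∃ r : Ω, r = w.res ⟨x, hx⟩ := ⟨_, rfl⟩
  have hint : IsIntegral K r := (Algebra.IsAlgebraic.isAlgebraic (R := K) r).isIntegral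
  obtain ⟨p, hp⟩ : ∃ p : Polynomial K, p = minpoly K r := ⟨_, rfl⟩
  have hp0 : Polynomial.aeval r p = 0 := by rw [hp]; exact minpoly.aeval K r
  have hp1 : Polynomial.aeval r (Polynomial.derivative p) ≠ 0 := by
    have hs : p.Separable := by rw [hp]; exact (minpoly.irreducible hint).separable
    exact hs.aeval_derivative_ne_zero hp0
  have hsx : σ x ∈ W.V := (hσ.1 x).2 hx
  have htx : τ x ∈ W.V := (hτ.1 x).2 hx
  have hrs : W.res ⟨σ x, hsx⟩ = r := by rw [hr]; exact hσ.2 x hx hsx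
  have hrt : W.res ⟨τ x, htx⟩ = r := by rw [hr]; exact hτ.2 x hx htx
  -- the element `y`
  have hpx : Polynomial.aeval x p ∈ w.V.nonunits := by
    have h1 := nb_res w p ⟨x, hx⟩
    rw [← hr, hp0] at h1
    have h2 := nb_zero w h1
    rwa [nb_ev] at h2
  have hy : Polynomial.aeval x p / π ∈ w.V := (hπ _).1 hpx
  have hpy : Polynomial.aeval x p = π * (Polynomial.aeval x p / π) := by
    field_simp
  obtain ⟨y, hyd⟩ : ∃ y, y = Polynomial.aeval x p / π := ⟨_, rfl⟩
  rw [← hyd] at hy hpy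
  have hty : τ y ∈ W.V := (hτ.1 y).2 hy
  -- the unit
  obtain ⟨k, hk⟩ := Polynomial.binomExpansion (p.map (nbC W)) ⟨τ x, htx⟩
    (⟨σ x, hsx⟩ - ⟨τ x, htx⟩)
  rw [add_sub_cancel] at hk
  obtain ⟨a, ha⟩ : ∃ a : W.V, a = (Polynomial.derivative (p.map (nbC W))).eval ⟨τ x, htx⟩ +
    k * (⟨σ x, hsx⟩ - ⟨τ x, htx⟩) := ⟨_, rfl⟩
  have ha1 : W.res a ≠ 0 := by
    rw [ha, map_add, map_mul, map_sub, hrs, hrt, sub_self, mul_zero, add_zero,
      Polynomial.derivative_map, nb_res, hrt]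
    exact hp1
  obtain ⟨ha2, ha3⟩ := nb_unit W ha1
  have h1 : Polynomial.aeval (σ x) p - Polynomial.aeval (τ x) p = (a : L) * (σ x - τ x) := by
    have h2 : (p.map (nbC W)).eval ⟨σ x, hsx⟩ - (p.map (nbC W)).eval ⟨τ x, htx⟩ =
        a * (⟨σ x, hsx⟩ - ⟨τ x, htx⟩) := by
      rw [hk, ha]
      ring
    have h3 := congrArg (Subtype.val : W.V → L) h2
    have h4 : (((p.map (nbC W)).eval ⟨σ x, hsx⟩ : W.V) : L) -
        (((p.map (nbC W)).eval ⟨τ x, htx⟩ : W.V) : L) = (a : L) * (σ x - τ x) := h3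
    rwa [nb_ev, nb_ev] at h4
  have h2 : Polynomial.aeval (σ x) p = σ π * σ y := by
    rw [Polynomial.aeval_algHom_apply, hpy, map_mul]
  have h3 : Polynomial.aeval (τ x) p = τ π * τ y := by
    rw [Polynomial.aeval_algHom_apply, hpy, map_mul]
  rw [h2, h3] at h1
  refine ⟨y, hy, (a : L)⁻¹, (a : L)⁻¹ * τ y, ha3, mul_mem ha3 hty, ?_⟩
  have h4 : σ x - τ x = (a : L)⁻¹ * ((a : L) * (σ x - τ x)) := by
    rw [inv_mul_cancel_left₀ ha2]
  rw [h4, ← h1]
  ring

/-- Proof: by induction from `dif_step`: for all `k` and `x`: `σ x - τ x = u (σ π) ^ k + v (σ π - τ π)`, `u, v ∈ W.V`. If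
`σ π ≠ τ π` take `k` with `(σ π) ^ k / (σ π - τ π) ∈ W.V`; otherwise `σ x = τ x` because `σ x - τ x` is divisible by all powers
of `σ π` (a nonzero one is not: `harch`). -/
theorem dif_dvd (harch : ∀ b : L, b ≠ 0 → ∃ k : ℕ, (σ π) ^ k / b ∈ W.V) (x : E) (hx : x ∈ w.V) :
    ∃ v ∈ W.V, σ x - τ x = v * (σ π - τ π) := by
  have hπV : π ∈ w.V.nonunits := by
    rw [hπ, div_self hπ0]
    exact w.V.one_mem
  have hsπ : σ π ∈ W.V := (hσ.1 π).2 (w.V.nonunits_subset hπV)
  have hsπ' : σ π ∈ W.V.nonunits := by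
    have h1 : w.res ⟨π, w.V.nonunits_subset hπV⟩ = 0 := by
      apply w.res_zero
      have h2 := (ValuationSubring.coe_mem_nonunits_iff (A := w.V)
        (a := ⟨π, w.V.nonunits_subset hπV⟩)).1 hπV
      rwa [IsLocalRing.mem_maximalIdeal] at h2
    have h2 : W.res ⟨σ π, hsπ⟩ = 0 := by
      rw [← h1]
      exact hσ.2 π _ hsπ
    exact nb_zero W h2
  have key : ∀ (k : ℕ) (x : E), x ∈ w.V → ∃ u ∈ W.V, ∃ v ∈ W.V,
      σ x - τ x = u * (σ π) ^ k + v * (σ π - τ π) := by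
    intro k
    induction k with
    | zero =>
      intro x hx
      refine ⟨σ x - τ x, sub_mem ((hσ.1 x).2 hx) ((hτ.1 x).2 hx), 0, W.V.zero_mem, ?_⟩
      rw [pow_zero, mul_one, zero_mul, add_zero]
    | succ k ih =>
      intro x hx
      obtain ⟨y, hy, u, v, hu, hv, h1⟩ := dif_step hσ hτ hπ0 hπ x hx
      obtain ⟨u', hu', v', hv', h2⟩ := ih y hy
      refine ⟨u * u', mul_mem hu hu', u * σ π * v' + v,
        add_mem (mul_mem (mul_mem hu hsπ) hv') hv, ?_⟩
      rw [h1, h2]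
      ring
  by_cases h0 : σ π - τ π = 0
  · refine ⟨0, W.V.zero_mem, ?_⟩
    rw [zero_mul]
    by_contra hne
    obtain ⟨k, hk⟩ := harch _ hne
    obtain ⟨u, hu, v, -, h1⟩ := key (k + 1) x hx
    rw [h0, mul_zero, add_zero] at h1
    have h2 : (1 : L) = (u * ((σ π) ^ k / (σ x - τ x))) * σ π := by
      have h3 : (u * ((σ π) ^ k / (σ x - τ x))) * σ π =
          (u * (σ π) ^ (k + 1)) / (σ x - τ x) := by ring
      rw [h3, ← h1, div_self hne]
    have h3 : (1 : L) ∈ W.V.nonunits := by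
      rw [h2, ValuationSubring.mem_nonunits_iff, map_mul]
      rw [ValuationSubring.mem_nonunits_iff] at hsπ'
      exact lt_of_le_of_lt (mul_le_of_le_one_left'
        ((W.V.valuation_le_one_iff _).2 (mul_mem hu hk))) hsπ'
    rw [ValuationSubring.mem_nonunits_iff, map_one] at h3
    exact lt_irrefl _ h3
  · obtain ⟨k, hk⟩ := harch _ h0
    obtain ⟨u, hu, v, hv, h1⟩ := key k x hx
    refine ⟨u * ((σ π) ^ k / (σ π - τ π)) + v, add_mem (mul_mem hu hk) hv, ?_⟩
    rw [h1]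
    field_simp

end lem

end RS
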