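import Pool.Agent.Lib.MP_f80667_ag.Rs.Nb

/-! Embeddings with the same place: equality. -/

open ZC BE

namespace RS

variable {K E L Ω : Type} [Field K] [CharZero K] [Field E] [Field L] [Field Ω] [Algebra K E]
  [Algebra K L] [Algebra K Ω] [Algebra.IsAlgebraic K Ω]

section lem

variable {W : Place K L Ω} {w : Place K E Ω} {σ τ : E →ₐ[K] L} (hσ : Cm W (σ : E →+* L) w)
  (hτ : Cm W (τ : E →+* L) w) {π : E} (hπ0 : π ≠ 0)
  (hπ : ∀ x : E, x ∈ w.V.nonunits ↔ x / π ∈ w.V)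

include hσ hτ hπ0 hπ

private theorem nbtwo_d (harch : ∀ b : L, b ≠ 0 → ∃ k : ℕ, (σ π) ^ k / b ∈ W.V) {u g : E} {e : ℕ}
    (he : e ≠ 0) (hu : u ∈ w.V) (hu' : u⁻¹ ∈ w.V) (hu0 : u ≠ 0) (hg : g = u * π ^ e)
    (hst : σ g = τ g) {h1 : σ π / τ π ∈ W.V} (hr : W.res ⟨_, h1⟩ = 1) : σ π - τ π = 0 := by
  by_contra hd
  obtain ⟨v, hv, hdv⟩ := dif_dvd hσ hτ hπ0 hπ harch u hu
  have hc : CharZero Ω := charZero_of_injective_algebraMap (algebraMap K Ω).injective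
  have hσ0 : σ π ≠ 0 := (map_ne_zero σ).2 hπ0
  have hτ0 : τ π ≠ 0 := (map_ne_zero τ).2 hπ0
  have hτu0 : τ u ≠ 0 := (map_ne_zero τ).2 hu0
  have hπn : π ∈ w.V.nonunits := by
    rw [hπ, div_self hπ0]
    exact w.V.one_mem
  obtain ⟨hπV, hπm⟩ := ValuationSubring.mem_nonunits_iff_exists_mem_maximalIdeal.1 hπn
  have hπr : w.res ⟨π, hπV⟩ = 0 := w.res_zero _ hπm
  have hσV : σ π ∈ W.V := (hσ.1 π).2 hπV
  have hσr : W.res ⟨σ π, hσV⟩ = 0 := (hσ.2 π hπV hσV).trans hπr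
  have hτuV : (τ u)⁻¹ ∈ W.V := by
    have h2 := (hτ.1 u⁻¹).2 hu'
    have h3 : (τ : E →+* L) u⁻¹ = (τ u)⁻¹ := map_inv₀ τ u
    rwa [h3] at h2
  obtain ⟨n, rfl⟩ := Nat.exists_eq_succ_of_ne_zero he
  obtain ⟨q, hq⟩ : ∃ q : L, q = σ π / τ π := ⟨_, rfl⟩
  have hqV : q ∈ W.V := by rw [hq]; exact h1
  have hqr : W.res ⟨q, hqV⟩ = 1 := by
    rw [← hr]
    exact congrArg W.res (Subtype.ext hq)
  have hσq : σ π = q * τ π := by rw [hq, div_mul_cancel₀ _ hτ0]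
  have hkey : (∑ a ∈ Finset.range (n + 1), q ^ a) = -(v * σ π * q ^ n * (τ u)⁻¹) := by
    have h2 : σ u * σ π ^ (n + 1) = τ u * τ π ^ (n + 1) := by
      rw [hg, map_mul, map_mul, map_pow, map_pow] at hst
      exact hst
    have h3 : (q - 1) * ∑ a ∈ Finset.range (n + 1), q ^ a = q ^ (n + 1) - 1 := by
      rw [mul_comm]
      exact geom_sum_mul q (n + 1)
    have h4 : σ π - τ π = (q - 1) * τ π := by rw [hσq]; ring
    have h5 : (σ π - τ π) * τ π ^ n * (v * σ π * q ^ n + τ u * ∑ a ∈ Finset.range (n + 1), q ^ a) = 0 := by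
      have h6 : σ u = v * (σ π - τ π) + τ u := by rw [← hdv]; ring
      have h7 : (σ π - τ π) * τ π ^ n * (τ u * ∑ a ∈ Finset.range (n + 1), q ^ a) =
          τ u * τ π ^ (n + 1) * (q ^ (n + 1) - 1) := by
        rw [h4, ← h3]; ring
      have h8 : (σ π - τ π) * τ π ^ n * (v * σ π * q ^ n) =
          v * (σ π - τ π) * σ π ^ (n + 1) := by
        have h9 : σ π ^ (n + 1) = σ π * (q ^ n * τ π ^ n) := by
          rw [pow_succ', ← mul_pow, ← hσq]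
        rw [h9]; ring
      rw [mul_add, h7, h8]
      have h10 : τ u * τ π ^ (n + 1) * q ^ (n + 1) = τ u * σ π ^ (n + 1) := by
        rw [hσq, mul_pow]; ring
      have h11 : v * (σ π - τ π) * σ π ^ (n + 1) + τ u * τ π ^ (n + 1) * (q ^ (n + 1) - 1) =
          (v * (σ π - τ π) + τ u) * σ π ^ (n + 1) - τ u * τ π ^ (n + 1) := by
        rw [mul_sub (τ u * τ π ^ (n + 1)), h10]; ring
      rw [h11, ← h6, h2, sub_self]
    rcases mul_eq_zero.1 h5 with h | h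
    · exact absurd h (mul_ne_zero hd (pow_ne_zero _ hτ0))
    · have h12 : (∑ a ∈ Finset.range (n + 1), q ^ a) =
          (τ u * ∑ a ∈ Finset.range (n + 1), q ^ a) * (τ u)⁻¹ := by
        field_simp
      rw [h12, eq_neg_of_add_eq_zero_right h]
      ring
  have hl : W.res (∑ a ∈ Finset.range (n + 1), (⟨q, hqV⟩ : W.V) ^ a) = ((n + 1 : ℕ) : Ω) := by
    rw [map_sum]
    simp only [map_pow, hqr, one_pow, Finset.sum_const, Finset.card_range, nsmul_eq_mul, mul_one]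
  have hrr : W.res (-(⟨v, hv⟩ * ⟨σ π, hσV⟩ * (⟨q, hqV⟩ : W.V) ^ n * ⟨(τ u)⁻¹, hτuV⟩)) = 0 := by
    rw [map_neg, map_mul, map_mul, map_mul, hσr, mul_zero, zero_mul, zero_mul, neg_zero]
  have he2 : (∑ a ∈ Finset.range (n + 1), (⟨q, hqV⟩ : W.V) ^ a) =
      -(⟨v, hv⟩ * ⟨σ π, hσV⟩ * (⟨q, hqV⟩ : W.V) ^ n * ⟨(τ u)⁻¹, hτuV⟩) := by
    apply Subtype.ext
    push_cast
    exact hkey
  rw [he2, hrr] at hl
  exact (Nat.cast_ne_zero (R := Ω)).2 (Nat.succ_ne_zero n) hl.symm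

/-- If moreover `σ g = τ g` for `g = u π ^ e`, `e ≥ 1`, and `σ π / τ π` has residue `1`, then `σ = τ`. Proof: with `d = σ π - τ π`:
`0 = σ g - τ g = (σ u - τ u) (σ π) ^ e + τ u ((σ π) ^ e - (τ π) ^ e)`, `σ u - τ u = v d`, and
`(σ π) ^ e - (τ π) ^ e = d (τ π) ^ (e - 1) s` with `s = ∑ a < e, (σ π / τ π) ^ a` of residue `e ≠ 0`. If `d ≠ 0` then
`τ u s = - v (σ π / τ π) ^ (e - 1) σ π`: the left side is a unit, the right side is not. So `d = 0`, `σ = τ` on `w.V`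
(`dif_dvd`), so on `E`. -/
theorem eq_of_res (harch : ∀ b : L, b ≠ 0 → ∃ k : ℕ, (σ π) ^ k / b ∈ W.V) {u g : E} {e : ℕ}
    (he : e ≠ 0) (hu : u ∈ w.V) (hu' : u⁻¹ ∈ w.V) (hu0 : u ≠ 0) (hg : g = u * π ^ e)
    (hst : σ g = τ g) {h1 : σ π / τ π ∈ W.V} (hr : W.res ⟨_, h1⟩ = 1) : σ = τ := by
  have hd := nbtwo_d hσ hτ hπ0 hπ harch he hu hu' hu0 hg hst hr
  have hV : ∀ x ∈ w.V, σ x = τ x := by
    intro x hx
    obtain ⟨v, -, hv⟩ := dif_dvd hσ hτ hπ0 hπ harch x hx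
    rw [hd, mul_zero] at hv
    exact sub_eq_zero.1 hv
  refine AlgHom.ext fun x => ?_
  rcases w.V.mem_or_inv_mem x with hx | hx
  · exact hV x hx
  · have h2 := hV _ hx
    rw [map_inv₀, map_inv₀] at h2
    exact inv_injective h2

end lem

end RS
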