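import Pool.Agent.Lib.MP_f80667_ag.Rs.Nb2
import Pool.Agent.Lib.MP_f80667_ag.Rs.Na2

/-! The number of embeddings with the same place is at most the order. -/

open ZC BE

namespace RS

section aux

variable {K E L Ω : Type} [Field K] [Field E] [Field L] [Field Ω] [Algebra K E] [Algebra K L]
  [Algebra K Ω]

private theorem quo_mem {W : Place K L Ω} {w : Place K E Ω} {σ τ : E →+* L} (hσ : Cm W σ w)
    (hτ : Cm W τ w) {π u g : E} {e : ℕ} (he : e ≠ 0) (hπ0 : π ≠ 0) (hu : u ∈ w.V)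
    (hu' : u⁻¹ ∈ w.V) (hu0 : u ≠ 0) (hg : g = u * π ^ e) (hst : σ g = τ g) :
    ∃ h : σ π / τ π ∈ W.V, W.res ⟨_, h⟩ ^ e = 1 := by
  have hσπ : σ π ≠ 0 := (map_ne_zero σ).2 hπ0
  have hτπ : τ π ≠ 0 := (map_ne_zero τ).2 hπ0
  have hσu : σ u ≠ 0 := (map_ne_zero σ).2 hu0
  have hτu : τ u ≠ 0 := (map_ne_zero τ).2 hu0
  have h1 : (σ π / τ π) ^ e = τ u * σ u⁻¹ := by
    have h2 : σ u * σ π ^ e = τ u * τ π ^ e := by
      have h3 := hst
      rw [hg, map_mul, map_mul, map_pow, map_pow] at h3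
      exact h3
    rw [div_pow, map_inv₀, div_eq_iff (pow_ne_zero e hτπ)]
    calc σ π ^ e = (σ u)⁻¹ * (σ u * σ π ^ e) := by
          rw [← mul_assoc, inv_mul_cancel₀ hσu, one_mul]
      _ = (σ u)⁻¹ * (τ u * τ π ^ e) := by rw [h2]
      _ = τ u * (σ u)⁻¹ * τ π ^ e := by ring
  have m1 : τ u ∈ W.V := (hτ.1 u).2 hu
  have m2 : σ u⁻¹ ∈ W.V := (hσ.1 _).2 hu'
  have hx : σ π / τ π ∈ W.V := by
    rcases W.V.mem_or_inv_mem (σ π / τ π) with h | h
    · exact h
    · have h5 : σ π / τ π = (σ π / τ π) ^ e * ((σ π / τ π)⁻¹) ^ (e - 1) := by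
        obtain ⟨e', rfl⟩ := Nat.exists_eq_succ_of_ne_zero he
        have h6 : σ π / τ π ≠ 0 := div_ne_zero hσπ hτπ
        rw [Nat.succ_sub_one, pow_succ, mul_assoc, mul_comm (σ π / τ π) _, ← mul_assoc, ← mul_pow,
          mul_inv_cancel₀ h6, one_pow, one_mul]
      rw [h5, h1]
      exact mul_mem (mul_mem m1 m2) (pow_mem h _)
  refine ⟨hx, ?_⟩
  rw [← map_pow]
  have h7 : (⟨σ π / τ π, hx⟩ : W.V) ^ e = ⟨τ u, m1⟩ * ⟨σ u⁻¹, m2⟩ := Subtype.ext h1
  rw [h7, map_mul, hτ.2 u hu m1, hσ.2 _ hu' m2, ← map_mul]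
  have h8 : (⟨u, hu⟩ : w.V) * ⟨u⁻¹, hu'⟩ = 1 := Subtype.ext (mul_inv_cancel₀ hu0)
  rw [h8, map_one]

private theorem alg_adj {g : E} {k₀ : IntermediateField K E}
    (hk : k₀ = IntermediateField.adjoin K {g}) [FiniteDimensional k₀ E]
    (b : AlgebraicClosure E) :
    IsAlgebraic (IntermediateField.adjoin K {algebraMap E (AlgebraicClosure E) g}) b := by
  have : Algebra.IsAlgebraic k₀ (AlgebraicClosure E) :=
    Algebra.IsAlgebraic.trans k₀ E (AlgebraicClosure E)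
  obtain ⟨p, hp0, hp⟩ := Algebra.IsAlgebraic.isAlgebraic (R := k₀) b
  have hmem : ∀ x : k₀, algebraMap E (AlgebraicClosure E) x ∈
      IntermediateField.adjoin K {algebraMap E (AlgebraicClosure E) g} := by
    intro x
    have h1 : (x : E) ∈ IntermediateField.adjoin K {g} := hk ▸ x.2
    have h2 := IntermediateField.adjoin_map K {g} (IsScalarTower.toAlgHom K E (AlgebraicClosure E))
    have h3 : (IsScalarTower.toAlgHom K E (AlgebraicClosure E)) (x : E) ∈
        (IntermediateField.adjoin K {g}).map (IsScalarTower.toAlgHom K E (AlgebraicClosure E)) :=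
      ⟨x, h1, rfl⟩
    rw [h2, Set.image_singleton] at h3
    exact h3
  let f : k₀ →+* IntermediateField.adjoin K {algebraMap E (AlgebraicClosure E) g} :=
    { toFun := fun x => ⟨algebraMap E (AlgebraicClosure E) x, hmem x⟩
      map_one' := Subtype.ext (by simp)
      map_zero' := Subtype.ext (by simp)
      map_mul' := fun x y => Subtype.ext (by simp)
      map_add' := fun x y => Subtype.ext (by simp) }
  refine ⟨p.map f, (Polynomial.map_ne_zero_iff f.injective).2 hp0, ?_⟩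
  rw [Polynomial.aeval_def, Polynomial.eval₂_map]
  rw [Polynomial.aeval_def] at hp
  exact hp

end aux

variable {K E Ω : Type} [Field K] [CharZero K] [Field E] [Field Ω] [Algebra K E] [Algebra K Ω]
  [Algebra.IsAlgebraic K Ω]

/-- At most `m` embeddings over `k₀ = K (g)` have the same restriction `w` of the place `W`, `m` the order of `g` at `w`. Proof: fix one
of them, `σ₀`; `σ ↦ W.res (σ π / σ₀ π)` is injective (`eq_of_res`; if the values of `σ`, `τ` are equal then `σ π / τ π` has residue `1`)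
and its values are `m`-th roots of `1` (`σ g = g = σ₀ g`, so `(σ π / σ₀ π) ^ m = σ₀ u / σ u` has residue `1`). `harch` from `arch` for
`g`, as `g` is a multiple of `π`. -/
theorem card_le {g : E} {k₀ : IntermediateField K E} (hk : k₀ = IntermediateField.adjoin K {g})
    [FiniteDimensional k₀ E] {W : Place K (AlgebraicClosure E) Ω}
    (hW : algebraMap E (AlgebraicClosure E) g ∈ W.V.nonunits) {w : Place K E Ω} {m : ℤ}
    (hw : w.IsOrd g m) (hg : g ∈ w.V.nonunits) (T : Finset (E →ₐ[k₀] AlgebraicClosure E))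
    (hT : ∀ σ ∈ T, Cm W (σ : E →+* AlgebraicClosure E) w) : (T.card : ℤ) ≤ m := by
  classical
  obtain ⟨π, u, hπ0, hπ, hu, hu', hu0, hgu⟩ := hw
  have hπn : π ∈ w.V.nonunits := (hπ π).2 (by rw [div_self hπ0]; exact w.V.one_mem)
  have hπV : π ∈ w.V := w.V.nonunits_subset hπn
  have hm : 0 < m := by
    by_contra hm
    push Not at hm
    obtain ⟨n, hn⟩ := Int.eq_ofNat_of_zero_le (neg_nonneg.2 hm)
    rcases (ValuationSubring.mem_nonunits_iff_or w.V).1 hg with h | h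
    · rw [hgu] at h
      exact mul_ne_zero hu0 (zpow_ne_zero m hπ0) h
    · apply h
      rw [hgu, mul_inv, ← zpow_neg, hn, zpow_natCast]
      exact mul_mem hu' (pow_mem hπV n)
  obtain ⟨e, rfl⟩ := Int.eq_ofNat_of_zero_le hm.le
  have he : e ≠ 0 := by
    rintro rfl
    simp at hm
  rw [zpow_natCast] at hgu
  have hgmem : g ∈ k₀ := by
    rw [hk]
    exact IntermediateField.mem_adjoin_simple_self K g
  have hcg : ∀ σ : E →ₐ[k₀] AlgebraicClosure E,
      (σ : E →+* AlgebraicClosure E) g = algebraMap E (AlgebraicClosure E) g := by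
    intro σ
    have h1 := σ.commutes ⟨g, hgmem⟩
    rw [IsScalarTower.algebraMap_apply k₀ E (AlgebraicClosure E)] at h1
    exact h1
  have harch : ∀ σ ∈ T, ∀ b : AlgebraicClosure E, b ≠ 0 →
      ∃ k : ℕ, ((σ : E →+* AlgebraicClosure E) π) ^ k / b ∈ W.V := by
    intro σ hσ b hb
    obtain ⟨k, hk'⟩ := arch W hW hb (alg_adj hk b)
    refine ⟨e * k, ?_⟩
    have h1 : ((σ : E →+* AlgebraicClosure E) π) ^ (e * k) / b =
        (algebraMap E (AlgebraicClosure E) g) ^ k / b *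
          ((σ : E →+* AlgebraicClosure E) u⁻¹) ^ k := by
      have hσu : (σ : E →+* AlgebraicClosure E) u ≠ 0 := (map_ne_zero _).2 hu0
      rw [← hcg σ, hgu, map_mul, map_pow, map_inv₀, mul_pow, ← pow_mul, inv_pow]
      field_simp
    rw [h1]
    exact mul_mem hk' (pow_mem (((hT σ hσ).1 _).2 hu') k)
  rcases T.eq_empty_or_nonempty with rfl | ⟨σ₀, hσ₀⟩
  · simp
  have hq : ∀ σ ∈ T, ∀ τ ∈ T, ∃ h : (σ : E →+* AlgebraicClosure E) π /
      (τ : E →+* AlgebraicClosure E) π ∈ W.V, W.res ⟨_, h⟩ ^ e = 1 := fun σ hσ τ hτ =>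
    quo_mem (hT σ hσ) (hT τ hτ) he hπ0 hu hu' hu0 hgu ((hcg σ).trans (hcg τ).symm)
  let φ : (E →ₐ[k₀] AlgebraicClosure E) → Ω := fun σ =>
    if h : (σ : E →+* AlgebraicClosure E) π / (σ₀ : E →+* AlgebraicClosure E) π ∈ W.V then
      W.res ⟨_, h⟩ else 0
  have hφ : ∀ σ ∈ T, φ σ ∈ (Polynomial.nthRoots e (1 : Ω)).toFinset := by
    intro σ hσ
    obtain ⟨h, h1⟩ := hq σ hσ σ₀ hσ₀
    rw [Multiset.mem_toFinset, Polynomial.mem_nthRoots (Nat.pos_of_ne_zero he)]
    show (if h : (σ : E →+* AlgebraicClosure E) π / (σ₀ : E →+* AlgebraicClosure E) π ∈ W.V then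
      W.res ⟨_, h⟩ else 0) ^ e = 1
    rw [dif_pos h]
    exact h1
  have hinj : Set.InjOn φ T := by
    intro σ hσ τ hτ hst
    obtain ⟨h, h1⟩ := hq σ hσ σ₀ hσ₀
    obtain ⟨h', h1'⟩ := hq τ hτ σ₀ hσ₀
    obtain ⟨h'', -⟩ := hq σ hσ τ hτ
    have e1 : φ σ = W.res ⟨_, h⟩ := dif_pos h
    have e2 : φ τ = W.res ⟨_, h'⟩ := dif_pos h'
    rw [e1, e2] at hst
    have hτπ : (τ : E →+* AlgebraicClosure E) π ≠ 0 := (map_ne_zero _).2 hπ0
    have h2 : (⟨_, h⟩ : W.V) = ⟨_, h''⟩ * ⟨_, h'⟩ := by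
      refine Subtype.ext ?_
      show (σ : E →+* AlgebraicClosure E) π / (σ₀ : E →+* AlgebraicClosure E) π =
        (σ : E →+* AlgebraicClosure E) π / (τ : E →+* AlgebraicClosure E) π *
        ((τ : E →+* AlgebraicClosure E) π / (σ₀ : E →+* AlgebraicClosure E) π)
      rw [div_mul_div_cancel₀ hτπ]
    have h3 : W.res ⟨_, h''⟩ = 1 := by
      have h4 : W.res ⟨_, h'⟩ ≠ 0 := by
        intro h5
        rw [h5, zero_pow he] at h1'
        exact zero_ne_one h1'
      rw [h2, map_mul] at hst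
      exact (mul_eq_right₀ h4).1 hst
    have h6 : σ.restrictScalars K = τ.restrictScalars K :=
      eq_of_res (W := W) (w := w) (σ := σ.restrictScalars K) (τ := τ.restrictScalars K)
        (hT σ hσ) (hT τ hτ) hπ0 hπ (harch σ hσ) he hu hu' hu0 hgu
        ((hcg σ).trans (hcg τ).symm) (h1 := h'') h3
    ext x
    exact DFunLike.congr_fun h6 x
  have h7 := Finset.card_le_card_of_injOn φ hφ hinj
  have h8 : (Polynomial.nthRoots e (1 : Ω)).toFinset.card ≤ e :=
    (Multiset.toFinset_card_le _).trans (Polynomial.card_nthRoots e 1)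
  exact_mod_cast h7.trans h8

end RS
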