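import Pool.Agent.Lib.MP_f80667_ag.Rs.Vb

/-! Points over `K (g)` have coordinates in `K [g]`; they are constant. -/

open ZC BE PE CV GX

namespace RS

section pol

variable {F : Type} [Field F] {N : ℕ} {ι : Type} {f : ι → MvPolynomial (Fin N) F}
  {K E L Ω : Type} [Field K] [Field E] [Field L] [Field Ω] [Algebra K E] [Algebra K L]
  [Algebra E L] [IsScalarTower K E L] [Algebra F K] [Algebra F E] [Algebra F L]
  [IsScalarTower F K E] [IsScalarTower F K L] [IsScalarTower F E L] [Algebra K Ω]
  [Algebra F Ω] [IsScalarTower F K Ω]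

/-- Proof: the coordinates are quotients of elements of `K [g]` (`IntermediateField.mem_adjoin_simple_iff`); take a common denominator
and divide by the greatest common divisor (`K [X]` is a principal ideal ring). -/
theorem exists_pol (hf : Hm f) {g : E} {k₀ : IntermediateField K E}
    (hk : k₀ = IntermediateField.adjoin K {g}) (P : (Xf f).pt k₀) (j : k₀ →ₐ[F] L)
    (hj : ∀ a : k₀, j a = algebraMap E L a) :
    ∃ q : Fin N → Polynomial K, (∃ u : Fin N → Polynomial K, ∑ i, u i * q i = 1) ∧
      Co ((Xf f).map j P) fun i => Polynomial.aeval (algebraMap E L g) (q i) := by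
  classical
  obtain ⟨x, hx⟩ := exists_co P
  have hmap : Co ((Xf f).map j P) fun i => algebraMap E L (x i : E) := by
    obtain ⟨Q, rfl, rfl⟩ := hx
    exact ⟨Q.mp j, rfl, funext fun i => hj _⟩
  have h1 : ∀ i, ∃ r s : Polynomial K, Polynomial.aeval g s ≠ 0 ∧
      (x i : E) * Polynomial.aeval g s = Polynomial.aeval g r := by
    intro i
    have h2 : (x i : E) ∈ IntermediateField.adjoin K {g} := hk ▸ (x i).2
    obtain ⟨r, s, hrs⟩ := (IntermediateField.mem_adjoin_simple_iff K _).1 h2
    by_cases hs : Polynomial.aeval g s = 0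
    · refine ⟨0, 1, ?_, ?_⟩
      · rw [map_one]
        exact one_ne_zero
      · rw [hrs, hs, div_zero, zero_mul, map_zero]
    · exact ⟨r, s, hs, by rw [hrs, div_mul_cancel₀ _ hs]⟩
  choose r s hs hrs using h1
  obtain ⟨S, hS⟩ : ∃ S : Polynomial K, S = ∏ i, s i := ⟨_, rfl⟩
  obtain ⟨A, hA⟩ : ∃ A : Fin N → Polynomial K, ∀ i, A i = r i * ∏ k ∈ Finset.univ.erase i, s k :=
    ⟨_, fun _ => rfl⟩
  have hS0 : Polynomial.aeval g S ≠ 0 := by
    rw [hS, map_prod]
    exact Finset.prod_ne_zero_iff.2 fun i _ => hs i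
  have hxA : ∀ i, (x i : E) * Polynomial.aeval g S = Polynomial.aeval g (A i) := by
    intro i
    rw [hS, hA, ← Finset.mul_prod_erase Finset.univ s (Finset.mem_univ i), map_mul, map_mul,
      ← mul_assoc, hrs]
  obtain ⟨i₀, hi₀⟩ : ∃ i, x i ≠ 0 := by
    by_contra hcon
    push Not at hcon
    exact co_ne hx (funext hcon)
  have hi₁ : (x i₀ : E) ≠ 0 := fun h => hi₀ (Subtype.ext h)
  obtain ⟨D, hD⟩ : ∃ D : Polynomial K, Ideal.span (Set.range A) = Ideal.span {D} :=
    (IsPrincipalIdealRing.principal (Ideal.span (Set.range A))).principal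
  have hdvd : ∀ i, D ∣ A i := by
    intro i
    rw [← Ideal.mem_span_singleton, ← hD]
    exact Ideal.subset_span ⟨i, rfl⟩
  choose q hq using hdvd
  have hDm : D ∈ Ideal.span (Set.range A) := by
    rw [hD]
    exact Ideal.mem_span_singleton_self D
  obtain ⟨u, hu⟩ := (Ideal.mem_span_range_iff_exists_fun).1 hDm
  have hDg : Polynomial.aeval g D ≠ 0 := by
    intro h
    have h2 := hxA i₀
    rw [hq, map_mul, h, zero_mul] at h2
    exact mul_ne_zero hi₁ hS0 h2
  have hD0 : D ≠ 0 := by
    rintro rfl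
    exact hDg (map_zero _)
  refine ⟨q, ⟨u, ?_⟩, ?_⟩
  · refine mul_left_cancel₀ hD0 ?_
    rw [Finset.mul_sum, mul_one]
    refine Eq.trans (Finset.sum_congr rfl fun i _ => ?_) hu
    rw [hq i]
    ring
  · obtain ⟨c, hc⟩ : ∃ c : E, c = Polynomial.aeval g S / Polynomial.aeval g D := ⟨_, rfl⟩
    have hc0 : c ≠ 0 := by
      rw [hc]
      exact div_ne_zero hS0 hDg
    have hcL : algebraMap E L c ≠ 0 := (map_ne_zero _).2 hc0
    have h2 := co_smul hf hmap hcL
    have h3 : (fun i => algebraMap E L c * algebraMap E L (x i : E)) =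
        fun i => Polynomial.aeval (algebraMap E L g) (q i) := by
      funext i
      rw [Polynomial.aeval_algebraMap_apply, ← map_mul]
      congr 1
      have h4 := hxA i
      rw [hq, map_mul] at h4
      rw [hc, div_mul_eq_mul_div, div_eq_iff hDg, mul_comm _ (x i : E), h4, mul_comm]
    rwa [h3] at h2

end pol

end RS
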