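import Pool.Agent.Lib.MP_f80667_ag.Rs.Vb

/-! Points with coordinates in `K [t]`: curves over the algebraic closure. -/

open ZC BE PE CV GX

namespace RS

section pol

variable {F : Type} [Field F] {N : ℕ} {ι : Type} {f : ι → MvPolynomial (Fin N) F}
  {K E L Ω : Type} [Field K] [Field E] [Field L] [Field Ω] [Algebra K E] [Algebra K L]
  [Algebra E L] [IsScalarTower K E L] [Algebra F K] [Algebra F E] [Algebra F L]
  [IsScalarTower F K E] [IsScalarTower F K L] [IsScalarTower F E L] [Algebra K Ω]
  [Algebra F Ω] [IsScalarTower F K Ω]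

/-- The equations for the polynomials. Proof: `t` is transcendental. -/
theorem pol_eq {t : L} (ht : Transcendental K t) {P : (Xf f).pt L} {q : Fin N → Polynomial K}
    (h : Co P fun i => Polynomial.aeval t (q i)) (i : ι) :
    MvPolynomial.aeval q (f i) = 0 := by
  have h1 := co_zero h i
  have h2 := MvPolynomial.comp_aeval_apply ((Polynomial.aeval t : Polynomial K →ₐ[K] L).restrictScalars F)
    (f := q) (p := f i)
  have h3 : Polynomial.aeval t (MvPolynomial.aeval q (f i)) = 0 := h2.trans h1
  exact (transcendental_iff.1 ht) _ h3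

/-- The curve over `Ω`. Proof: `pol_eq`, some `q i (α) ≠ 0` because of `hu`. -/
theorem pol_pt {q : Fin N → Polynomial K} (hq : ∀ i, MvPolynomial.aeval q (f i) = 0)
    (hu : ∃ u : Fin N → Polynomial K, ∑ i, u i * q i = 1) (α : Ω) :
    ∃ P : (Xf f).pt Ω, Co P fun i => ((q i).map (algebraMap K Ω)).eval α := by
  have e : ∀ p : Polynomial K, (p.map (algebraMap K Ω)).eval α = Polynomial.aeval α p :=
    fun p => Polynomial.eval_map_algebraMap p α
  simp only [e]
  refine co_mk (fun h => ?_) fun i => ?_
  · obtain ⟨u, hu⟩ := hu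
    have h1 := congrArg (Polynomial.aeval α) hu
    rw [map_sum, map_one] at h1
    rw [Finset.sum_eq_zero fun i _ => by
      rw [map_mul, show Polynomial.aeval α (q i) = 0 from congrFun h i, mul_zero]] at h1
    exact zero_ne_one h1
  · have h2 := MvPolynomial.comp_aeval_apply
      ((Polynomial.aeval α : Polynomial K →ₐ[K] Ω).restrictScalars F) (f := q) (p := f i)
    rw [hq i, map_zero] at h2
    exact h2.symm

/-- The curve at infinity, `D` the maximum of the degrees. Proof: `r i = reflect D (q i)`; the vector `r (0)` of the coefficients of degree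
`D` is not `0`; the equations for `r (x)`, `x ≠ 0`, by homogeneity, so for all `x`. -/
theorem pol_inf (hf : Hm f) [Infinite Ω] {q : Fin N → Polynomial K}
    (hq : ∀ i, MvPolynomial.aeval q (f i) = 0)
    (hu : ∃ u : Fin N → Polynomial K, ∑ i, u i * q i = 1) :
    ∃ (D : ℕ) (r : Fin N → Polynomial Ω),
      (∀ x, x ≠ 0 → ∀ i, (r i).eval x = x ^ D * ((q i).map (algebraMap K Ω)).eval x⁻¹) ∧
      ∀ α, ∃ P : (Xf f).pt Ω, Co P fun i => (r i).eval α := by
  obtain ⟨D, hD⟩ : ∃ D, D = Finset.univ.sup fun i => (q i).natDegree := ⟨_, rfl⟩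
  have hle : ∀ i, (q i).natDegree ≤ D := fun i => by
    rw [hD]
    exact Finset.le_sup (f := fun i => (q i).natDegree) (Finset.mem_univ i)
  obtain ⟨u, hu⟩ := hu
  have hex : ∃ i, (q i).coeff D ≠ 0 := by
    obtain ⟨i₀, h0⟩ : ∃ i, q i ≠ 0 := by
      by_contra hcon
      push Not at hcon
      rw [Finset.sum_eq_zero fun i _ => by rw [hcon i, mul_zero]] at hu
      exact zero_ne_one hu
    obtain ⟨i₁, -, h1⟩ := Finset.exists_mem_eq_sup Finset.univ ⟨i₀, Finset.mem_univ i₀⟩
      fun i => (q i).natDegree
    rw [← hD] at h1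
    rcases Nat.eq_zero_or_pos D with h2 | h2
    · refine ⟨i₀, fun h3 => h0 ?_⟩
      have h4 := hle i₀
      rw [h2] at h3 h4
      rw [Polynomial.eq_C_of_natDegree_eq_zero (Nat.le_zero.1 h4), h3, map_zero]
    · refine ⟨i₁, fun h3 => ?_⟩
      rw [h1] at h3
      have h4 := Polynomial.leadingCoeff_eq_zero.1 h3
      rw [h1, h4, Polynomial.natDegree_zero] at h2
      exact lt_irrefl _ h2
  have key : ∀ x : Ω, x ≠ 0 → ∀ i, (((q i).map (algebraMap K Ω)).reflect D).eval x =
      x ^ D * ((q i).map (algebraMap K Ω)).eval x⁻¹ := by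
    intro x hx i
    have hinv : Invertible x⁻¹ := invertibleOfNonzero (inv_ne_zero hx)
    have h1 := Polynomial.eval₂_reflect_mul_pow (RingHom.id Ω) x⁻¹ D
      ((q i).map (algebraMap K Ω)) ((Polynomial.natDegree_map_le).trans (hle i))
    rw [invOf_eq_inv, inv_inv, ← Polynomial.eval, ← Polynomial.eval] at h1
    rw [← h1, inv_pow]
    field_simp
  have hpt : ∀ x : Ω, x ≠ 0 → ∃ P : (Xf f).pt Ω,
      Co P fun i => (((q i).map (algebraMap K Ω)).reflect D).eval x := by
    intro x hx
    obtain ⟨P, hP⟩ := pol_pt hq ⟨u, hu⟩ x⁻¹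
    refine ⟨P, ?_⟩
    have h1 := co_smul hf hP (pow_ne_zero D hx)
    simp only [key x hx]
    exact h1
  refine ⟨D, fun i => ((q i).map (algebraMap K Ω)).reflect D, key, fun α => ?_⟩
  rcases eq_or_ne α 0 with h0 | h0
  · subst h0
    refine co_mk (fun h => ?_) fun i => ?_
    · obtain ⟨i, hi⟩ := hex
      have h1 := congrFun h i
      simp only [Pi.zero_apply] at h1
      rw [← Polynomial.coeff_zero_eq_eval_zero, Polynomial.coeff_reflect, Polynomial.revAt_zero,
        Polynomial.coeff_map, map_eq_zero] at h1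
      exact hi h1
    · have e : ∀ x : Ω, (MvPolynomial.aeval (fun i => ((q i).map (algebraMap K Ω)).reflect D)
          (f i)).eval x = MvPolynomial.aeval
          (fun i => (((q i).map (algebraMap K Ω)).reflect D).eval x) (f i) := by
        intro x
        have h2 := MvPolynomial.comp_aeval_apply
          ((Polynomial.aeval x : Polynomial Ω →ₐ[Ω] Ω).restrictScalars F)
          (f := fun i => ((q i).map (algebraMap K Ω)).reflect D) (p := f i)
        simp only [AlgHom.restrictScalars_apply, Polynomial.coe_aeval_eq_eval] at h2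
        exact h2
      have h3 : MvPolynomial.aeval (fun i => ((q i).map (algebraMap K Ω)).reflect D) (f i) *
          Polynomial.X = 0 := by
        refine Polynomial.funext fun x => ?_
        rw [Polynomial.eval_mul, Polynomial.eval_X, Polynomial.eval_zero]
        rcases eq_or_ne x 0 with hx | hx
        · rw [hx, mul_zero]
        · obtain ⟨P, hP⟩ := hpt x hx
          rw [e x, co_zero hP i, zero_mul]
      have h4 := (mul_eq_zero.1 h3).resolve_right Polynomial.X_ne_zero
      rw [← e 0, h4, Polynomial.eval_zero]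
  · exact hpt α h0

end pol

end RS
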