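import Pool.Agent.Lib.MP_f80667_ag.Rs.Pa
import Pool.Agent.Lib.MP_f80667_ag.Rs.Pa2
import Pool.Agent.Lib.MP_f80667_ag.Rs.Ce

/-! Points over `K (g)` of group varieties are constant. -/

open ZC BE PE CV GX

namespace RS

private theorem pa3_map {F : Type} [Field F] {N : ℕ} {ι : Type}
    {f : ι → MvPolynomial (Fin N) F} {E E' : Type} [Field E] [Field E'] [Algebra F E]
    [Algebra F E'] (σ : E →ₐ[F] E') {P : (Xf f).pt E} {x : Fin N → E} (h : Co P x) :
    Co ((Xf f).map σ P) fun i => σ (x i) := by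
  obtain ⟨Q, rfl, rfl⟩ := h
  exact ⟨Q.mp σ, rfl, rfl⟩

private theorem pa3_zero {F : Type} [Field F] {V : Vr F} (G : AV.Gr V) (Ω : Type) [Field Ω]
    [Algebra F Ω] : V.map (Algebra.ofId F Ω) (G.grp F).zero = (G.grp Ω).zero := by
  let _ := G.grp F
  let _ := G.grp Ω
  exact map_zero (AddMonoidHom.mk' (V.map (Algebra.ofId F Ω)) (G.map_add F Ω (Algebra.ofId F Ω)))

private theorem pa3_ev {F : Type} [Field F] {N' k' : ℕ} {ι' : Type} (A : Gv F N' k' ι')
    (Ω : Type) [Field Ω] [Algebra F Ω] (i : Fin k') (x x' : Fin N' → Ω) :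
    ev (fun i j => MvPolynomial.map (algebraMap F Ω) (A.m i j)) i x x' = A.mv i x x' := by
  funext j
  rw [ev, Gv.mv, MvPolynomial.eval_map, MvPolynomial.aeval_def]

/-- Group varieties and the structure `Cg`. -/
theorem Ok.cg {F : Type} [Field F] {N' k' : ℕ} {ι' : Type} {A : Gv F N' k' ι'} (hA : A.Ok)
    (Ω : Type) [Field Ω] [Algebra F Ω] :
    letI := A.G.grp Ω
    Cg (fun (P : (Xf A.a).pt Ω) x => Co P x)
      (fun i j => MvPolynomial.map (algebraMap F Ω) (A.m i j)) (fun j => algebraMap F Ω (A.o j))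
      A.j₀ := by
  letI := A.G.grp Ω
  refine ⟨fun P x x' h h' j k => ?_, fun P x h => co_ne h, fun P x c h hc => co_smul hA.hm h hc,
    ?_, ?_, fun P Q x x' h h' => ?_, fun P Q x x' i h h' hne => ?_⟩
  · obtain ⟨c, -, h1⟩ := co_rel h h'
    rw [h1 k, h1 j]
    ring
  · rw [hA.o1, map_one]
  · have h1 := pa3_map (Algebra.ofId F Ω) hA.oc
    rw [pa3_zero] at h1
    exact h1
  · obtain ⟨i, hi⟩ := hA.ne Ω P Q x x' h h'
    exact ⟨i, by rwa [pa3_ev]⟩
  · rw [pa3_ev] at hne ⊢
    exact hA.sub Ω P Q (P - Q) x x' i h h' (sub_add_cancel P Q) hne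

section cst

variable {F : Type} [Field F] {N' k' : ℕ} {ι' : Type} {A : Gv F N' k' ι'}
  {K E L : Type} [Field K] [CharZero K] [Field E] [Field L] [Algebra K E] [Algebra K L]
  [Algebra E L] [IsScalarTower K E L] [Algebra F K] [Algebra F E] [Algebra F L]
  [IsScalarTower F K E] [IsScalarTower F K L] [IsScalarTower F E L]

/-- **A point over `K (g)` of a group variety is constant.** Proof: `exists_pol`, `pol_eq`, `pol_pt`, `pol_inf` over the algebraic closure
`Ω` of `K`, `RS.const` for `Ok.cg`: the `q i` are constant. -/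
theorem exists_cst (hA : A.Ok) {g : E} (hg : Transcendental K g) {k₀ : IntermediateField K E}
    (hk : k₀ = IntermediateField.adjoin K {g}) (P : (Xf A.a).pt k₀) (j : k₀ →ₐ[F] L)
    (hj : ∀ a : k₀, j a = algebraMap E L a) :
    ∃ x : Fin N' → K, Co ((Xf A.a).map j P) fun i => algebraMap K L (x i) := by
  obtain ⟨q, hu, h⟩ := exists_pol hA.hm hk P j hj
  have ht : Transcendental K (algebraMap E L g) :=
    (transcendental_algebraMap_iff (algebraMap E L).injective).2 hg
  have hq := pol_eq ht h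
  letI := A.G.grp (AlgebraicClosure K)
  have hC := Ok.cg hA (AlgebraicClosure K)
  have : Infinite (AlgebraicClosure K) := inferInstance
  obtain ⟨D, r, hr, hr0⟩ := pol_inf (Ω := AlgebraicClosure K) hA.hm hq hu
  obtain ⟨x, hx⟩ := RS.const hC (q := fun i => (q i).map (algebraMap K (AlgebraicClosure K)))
    (r := r) (fun α => pol_pt hq hu α) (D := D) hr hr0
  refine ⟨fun i => (q i).coeff 0, ?_⟩
  have h1 : ∀ i, q i = Polynomial.C ((q i).coeff 0) := by
    intro i
    apply Polynomial.map_injective (algebraMap K (AlgebraicClosure K))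
      (algebraMap K (AlgebraicClosure K)).injective
    have h2 := hx i
    have h3 := congrArg (fun p => Polynomial.coeff p 0) h2
    simp only [Polynomial.coeff_map, Polynomial.coeff_C_zero] at h3
    rw [Polynomial.map_C, h3]
    exact h2
  have h2 : (fun i => Polynomial.aeval (algebraMap E L g) (q i)) =
      fun i => algebraMap K L ((q i).coeff 0) := by
    funext i
    conv_lhs => rw [h1 i]
    rw [Polynomial.aeval_C]
  rw [h2] at h
  exact h

/-- The value of a constant point. Proof: `red_iff`, `red_uniq` with these coordinates. -/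
theorem red_cst {F : Type} [Field F] {N : ℕ} {ι : Type} {f : ι → MvPolynomial (Fin N) F}
    {K L Ω : Type} [Field K] [Field L] [Field Ω] [Algebra K L] [Algebra K Ω] [Algebra F K]
    [Algebra F L] [Algebra F Ω] [IsScalarTower F K L] [IsScalarTower F K Ω] {P : (Xf f).pt L}
    {x : Fin N → K} (h : Co P fun i => algebraMap K L (x i)) :
    ∃ c : (Xf f).pt Ω, ∀ W : Place K L Ω, (Xf f).red W P c := by
  have h0 : ∀ i, MvPolynomial.aeval (fun i => algebraMap K Ω (x i)) (f i) = 0 := by
    intro i
    have h1 := co_zero h i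
    have h2 : MvPolynomial.aeval (fun i => algebraMap K L (x i)) (f i) =
        algebraMap K L (MvPolynomial.aeval x (f i)) := by
      have h3 := MvPolynomial.comp_aeval_apply (f := x) (IsScalarTower.toAlgHom F K L) (f i)
      exact h3.symm
    rw [h2] at h1
    have h4 : MvPolynomial.aeval x (f i) = 0 := (map_eq_zero (algebraMap K L)).1 h1
    have h5 := MvPolynomial.comp_aeval_apply (f := x) (IsScalarTower.toAlgHom F K Ω) (f i)
    rw [h4, map_zero] at h5
    exact h5.symm
  have hx : (fun i => algebraMap K Ω (x i)) ≠ 0 := by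
    intro h1
    apply co_ne h
    funext i
    have h2 := congrFun h1 i
    have h3 : x i = 0 := (map_eq_zero (algebraMap K Ω)).1 h2
    change algebraMap K L (x i) = 0
    rw [h3, map_zero]
  obtain ⟨c, hc⟩ := co_mk hx h0
  exact ⟨c, fun W => red_iff.2 ⟨_, _, h, hc, fun i => ⟨W.mem (x i), W.res_k (x i)⟩⟩⟩

end cst

end RS
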