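import Pool.Agent.Lib.MP_f80667_ag.Rs.Na
import Pool.Agent.Lib.MP_f80667_ag.Sb.A

/-! Values of points of projective varieties at places. -/

open ZC BE PE CV GX

namespace RS

section red

variable {F : Type} [Field F] {N : ℕ} {ι : Type} {f : ι → MvPolynomial (Fin N) F} {K L Ω : Type}
  [Field K] [Field L] [Field Ω] [Algebra K L] [Algebra K Ω] [Algebra F L] [Algebra F Ω]

theorem red_iff {W : Place K L Ω} {P : (Xf f).pt L} {y : (Xf f).pt Ω} :
    (Xf f).red W P y ↔ ∃ (x : Fin N → L) (z : Fin N → Ω), Co P x ∧ Co y z ∧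
      ∀ i, ∃ h : x i ∈ W.V, W.res ⟨x i, h⟩ = z i := by
  constructor
  · rintro ⟨P', Q', rfl, rfl, h⟩
    exact ⟨P'.x, Q'.x, ⟨P', rfl, rfl⟩, ⟨Q', rfl, rfl⟩, h⟩
  · rintro ⟨x, z, ⟨P', rfl, rfl⟩, ⟨Q', rfl, rfl⟩, h⟩
    exact ⟨P', Q', rfl, rfl, h⟩

/-- The value is unique. Proof: two vectors `x`, `x' = c x` of integral coordinates with nonzero residues: `c` is integral (a coordinate
of `x` with residue `≠ 0` is a unit), and the residues of `x'` are `res c` times those of `x`; `co_rel`, `co_eq`. -/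
theorem red_uniq {W : Place K L Ω} {P : (Xf f).pt L} {y y' : (Xf f).pt Ω}
    (h : (Xf f).red W P y) (h' : (Xf f).red W P y') : y = y' := by
  obtain ⟨x, z, hx, ⟨Q, rfl, rfl⟩, h1⟩ := red_iff.1 h
  obtain ⟨x', z', hx', ⟨Q', rfl, rfl⟩, h1'⟩ := red_iff.1 h'
  obtain ⟨c, hc, h2⟩ := co_rel hx hx'
  obtain ⟨i, hi⟩ : ∃ i, Q.x i ≠ 0 := by
    by_contra hcon
    push Not at hcon
    exact Q.ne (funext hcon)
  obtain ⟨h3, h4⟩ := h1 i
  have hu : IsUnit (⟨x i, h3⟩ : W.V) := by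
    by_contra hn
    rw [W.res_zero _ hn] at h4
    exact hi h4.symm
  obtain ⟨u, hu⟩ := hu.exists_right_inv
  have hcV : c ∈ W.V := by
    have h5 : c = x' i * (u : L) := by
      have h6 : x i * (u : L) = 1 := congrArg (fun t : W.V => (t : L)) hu
      rw [h2 i, mul_assoc, h6, mul_one]
    rw [h5]
    exact mul_mem (h1' i).1 u.2
  have h7 : ∀ j, Q'.x j = W.res ⟨c, hcV⟩ * Q.x j := by
    intro j
    obtain ⟨h8, h9⟩ := h1 j
    obtain ⟨h8', h9'⟩ := h1' j
    rw [← h9, ← h9', ← map_mul]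
    exact congrArg W.res (Subtype.ext (h2 j))
  refine Quotient.sound ⟨W.res ⟨c, hcV⟩, fun h0 => Q'.ne (funext fun j => ?_), funext h7⟩
  rw [h7, h0, zero_mul]
  rfl

/-- The value at a place of a subfield. -/
theorem red_cm {E : Type} [Field E] [Algebra K E] [Algebra F E] {W : Place K L Ω}
    {w : Place K E Ω} (σ : E →ₐ[F] L) (h : Cm W (σ : E →+* L) w) {P : (Xf f).pt E}
    {y : (Xf f).pt Ω} (hy : (Xf f).red w P y) : (Xf f).red W ((Xf f).map σ P) y := by
  obtain ⟨P', Q', rfl, rfl, h1⟩ := hy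
  refine ⟨P'.mp σ, Q', rfl, rfl, fun i => ?_⟩
  obtain ⟨h2, h3⟩ := h1 i
  refine ⟨(h.1 (P'.x i)).2 h2, ?_⟩
  rw [← h3]
  exact h.2 (P'.x i) h2 _

variable [Algebra F K] [IsScalarTower F K L] [IsScalarTower F K Ω]

/-- The residue map commutes with polynomials over `F`. -/
theorem res_aeval (W : Place K L Ω) {s : Type} (p : MvPolynomial s F) (x : s → L) (z : s → Ω)
    (h : ∀ i, ∃ h : x i ∈ W.V, W.res ⟨x i, h⟩ = z i) :
    ∃ h : MvPolynomial.aeval x p ∈ W.V, W.res ⟨_, h⟩ = MvPolynomial.aeval z p := by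
  induction p using MvPolynomial.induction_on with
  | C a =>
    rw [MvPolynomial.aeval_C, MvPolynomial.aeval_C, IsScalarTower.algebraMap_apply F K L a,
      IsScalarTower.algebraMap_apply F K Ω a]
    exact ⟨W.mem _, W.res_k _⟩
  | add p q hp hq =>
    obtain ⟨h1, e1⟩ := hp
    obtain ⟨h2, e2⟩ := hq
    rw [map_add, map_add]
    refine ⟨add_mem h1 h2, ?_⟩
    rw [← e1, ← e2]
    exact map_add W.res ⟨_, h1⟩ ⟨_, h2⟩
  | mul_X p i hp =>
    obtain ⟨h1, e1⟩ := hp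
    obtain ⟨h2, e2⟩ := h i
    rw [map_mul, map_mul, MvPolynomial.aeval_X, MvPolynomial.aeval_X]
    refine ⟨mul_mem h1 h2, ?_⟩
    rw [← e1, ← e2]
    exact map_mul W.res ⟨_, h1⟩ ⟨_, h2⟩

/-- Every point has a value. Proof: divide the coordinates by one of maximal valuation; the residues satisfy the equations
(`res_aeval`). -/
theorem exists_red (hf : Hm f) (W : Place K L Ω) (P : (Xf f).pt L) :
    ∃ y, (Xf f).red W P y := by
  obtain ⟨x, hx⟩ := exists_co P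
  obtain ⟨k, hk⟩ : ∃ k, x k ≠ 0 := by
    by_contra hcon
    push Not at hcon
    exact co_ne hx (funext hcon)
  obtain ⟨i, -, hi⟩ := Finset.exists_max_image Finset.univ (fun i => W.V.valuation (x i))
    ⟨k, Finset.mem_univ k⟩
  have hi0 : x i ≠ 0 := by
    intro h0
    have h1 := hi k (Finset.mem_univ k)
    rw [h0, map_zero, le_zero_iff, map_eq_zero] at h1
    exact hk h1
  have hV : ∀ j, (x i)⁻¹ * x j ∈ W.V := by
    intro j
    rw [← ValuationSubring.valuation_le_one_iff, map_mul, map_inv₀]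
    have h1 := hi j (Finset.mem_univ j)
    have h2 : W.V.valuation (x i) ≠ 0 := (map_ne_zero _).2 hi0
    calc (W.V.valuation (x i))⁻¹ * W.V.valuation (x j) ≤
        (W.V.valuation (x i))⁻¹ * W.V.valuation (x i) := mul_le_mul_right h1 _
      _ = 1 := inv_mul_cancel₀ h2
  have hco := co_smul hf hx (inv_ne_zero hi0)
  have hz : (fun j => W.res ⟨(x i)⁻¹ * x j, hV j⟩) ≠ 0 := by
    intro h0
    have h1 := congrFun h0 i
    have h2 : (⟨(x i)⁻¹ * x i, hV i⟩ : W.V) = 1 := Subtype.ext (inv_mul_cancel₀ hi0)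
    have h3 : W.res ⟨(x i)⁻¹ * x i, hV i⟩ = 0 := h1
    rw [h2, map_one] at h3
    exact one_ne_zero h3
  obtain ⟨y, hy⟩ := co_mk (f := f) hz fun n => by
    obtain ⟨h1, h2⟩ := res_aeval W (f n) (fun j => (x i)⁻¹ * x j)
      (fun j => W.res ⟨(x i)⁻¹ * x j, hV j⟩) fun j => ⟨hV j, rfl⟩
    rw [← h2]
    have h3 : (⟨_, h1⟩ : W.V) = 0 := Subtype.ext (co_zero hco n)
    rw [h3, map_zero]
  exact ⟨y, red_iff.2 ⟨_, _, hco, hy, fun j => ⟨hV j, rfl⟩⟩⟩

end red

end RS
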