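import Pool.Agent.Lib.MP_f80667_ag.Rs.Va

/-! Points over subfields and their values. -/

open ZC BE PE CV GX

namespace RS

variable {F : Type} [Field F] {N : ℕ} {ι : Type} {f : ι → MvPolynomial (Fin N) F}

/-- A point which is fixed by the automorphisms is a point over the subfield. Proof: coordinates with one of them equal to `1` are fixed, so
in `k` (characteristic `0`: `IsGalois`, `InfiniteGalois`). -/
theorem exists_fixed (hf : Hm f) {k L : Type} [Field k] [CharZero k] [Field L] [Algebra k L]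
    [IsAlgClosure k L] [Algebra F k] [Algebra F L] [IsScalarTower F k L] (x : (Xf f).pt L)
    (hx : ∀ σ : L ≃ₐ[k] L, (Xf f).act σ x = x) :
    ∃ P : (Xf f).pt k, (Xf f).map (IsScalarTower.toAlgHom F k L) P = x := by
  obtain ⟨v, hv⟩ := exists_co x
  obtain ⟨i, hi⟩ : ∃ i, v i ≠ 0 := by
    by_contra hcon
    push Not at hcon
    exact co_ne hv (funext hcon)
  have hw := co_smul hf hv (inv_ne_zero hi)
  have hfp : Fp (Xf f) (⊥ : IntermediateField k L) x := fun γ _ => hx γ
  have hmem : ∀ j, ∃ a : k, algebraMap k L a = (v i)⁻¹ * v j := fun j =>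
    IntermediateField.mem_bot.1 (fp_mem hfp hw (inv_mul_cancel₀ hi) j)
  choose a ha using hmem
  have ha0 : a ≠ 0 := by
    intro h0
    have h1 := ha i
    rw [h0, Pi.zero_apply, map_zero, inv_mul_cancel₀ hi] at h1
    exact zero_ne_one h1
  have haz : ∀ j, MvPolynomial.aeval a (f j) = 0 := by
    intro j
    apply (algebraMap k L).injective
    have h1 := co_zero hw j
    have h2 : (IsScalarTower.toAlgHom F k L) (MvPolynomial.aeval a (f j)) =
        MvPolynomial.aeval (fun j => (v i)⁻¹ * v j) (f j) := by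
      rw [MvPolynomial.comp_aeval_apply]
      exact congrArg (fun z => MvPolynomial.aeval z (f j)) (funext ha)
    rw [h1] at h2
    rw [map_zero]
    exact h2
  refine ⟨Quotient.mk _ ⟨a, ha0, haz⟩, co_eq (x := fun j => (v i)⁻¹ * v j) ⟨_, rfl, ?_⟩ hw⟩
  exact funext ha

/-- The value of a point over `E` in the sense of `IsVal`. Proof: `exists_red`, `red_cm` (`cm_above`), `red_uniq`. -/
theorem red_of_val (hf : Hm f) {K E Ω : Type} [Field K] [Field E] [Field Ω] [Algebra K E]
    [Algebra K Ω] [Algebra F K] [Algebra F E] [Algebra F Ω] [IsScalarTower F K E]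
    [IsScalarTower F K Ω] {w : Place K E Ω} {P : (Xf f).pt E} {x : (Xf f).pt (AlgebraicClosure E)}
    (hP : (Xf f).map (IsScalarTower.toAlgHom F E (AlgebraicClosure E)) P = x)
    {y : (Xf f).pt Ω} (hy : (Xf f).IsVal w x y) : (Xf f).red w P y := by
  obtain ⟨W, h1, h2, h3⟩ := hy
  obtain ⟨y', hy'⟩ := exists_red hf w P
  have h4 := red_cm (W := W) (IsScalarTower.toAlgHom F E (AlgebraicClosure E)) ⟨h1, h2⟩ hy'
  rw [hP] at h4
  rw [red_uniq h3 h4]
  exact hy'

end RS
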